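import Pool.Agent.Lib.MP_7e9a3a_nt.Cplx.Level

namespace Pool.Agent.Lib.MP_7e9a3a_nt.Cplx

open Finset

section bound

variable {α : Type*} {x : ℕ → α} {m t TB : ℕ}

/-- The two return times have sum larger than `m`. -/
lemma Lvl.fw (L : Lvl x m t TB) {a b : ℕ} (ra : Ret x m t t a) (rb : Ret x m t TB b) :
    m + 1 ≤ a + b := by
  by_contra hcon
  push Not at hcon
  have hab : a + b ≤ m := by omega
  obtain ⟨ha1, ha2, -⟩ := ra
  obtain ⟨hb1, hb2, -⟩ := rb
  -- R = x[t..t+m) has periods a and b
  have pa : ∀ s < m, x (t + s) = x (t + a + s) := fun s hs => (ha2 s hs).symm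
  have pb : ∀ s < m, x (TB + s) = x (TB + b + s) := by
    intro s hs
    rw [hb2 s hs, L.visB s hs]
  have v := L.visB
  -- letters
  have h1 : x (t + m) = x (t + (m - a)) := by
    -- period a
    have h := pa (m - a) (by omega)
    rw [show t + a + (m - a) = t + m by omega] at h
    exact h.symm
  have h2 : x (TB + m) = x (t + (m - b)) := by
    have h := pb (m - b) (by omega)
    rw [show TB + b + (m - b) = TB + m by omega] at h
    rw [← h]
    exact v _ (by omega)
  have h3 : x (t + (m - a - b)) = x (t + (m - b)) := by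
    have h := pa (m - a - b) (by omega)
    rw [show t + a + (m - a - b) = t + (m - b) by omega] at h
    exact h
  have h4 : x (t + (m - a - b)) = x (t + (m - a)) := by
    have h := pb (m - a - b) (by omega)
    rw [show TB + b + (m - a - b) = TB + (m - a) by omega] at h
    rw [v _ (by omega), v _ (by omega)] at h
    exact h
  exact L.hne (by rw [h1, h2, ← h3, ← h4])

/-- periodic run of period `a` seen through the overlap of the initial branch and the `b` loop -/
lemma Lvl.brk (L : Lvl x m t TB) {a b g l : ℕ} (ra : Ret x m t t a)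
    (O : Ov x m t l (TB + b) b g) :
    Agree x (m - (b - g) - a) (t - g) (t - g + a) := by
  obtain ⟨ha1, ha2, -⟩ := ra
  have hgb := O.lt'
  have hgt := O.le
  intro k hk
  have e1 := O.agree k (by omega)
  rw [show TB + b - g + k = TB + (b - g + k) by omega, L.visB (b - g + k) (by omega),
    ← ha2 (b - g + k) (by omega)] at e1
  have e2 := O.agree (a + k) (by omega)
  rw [show TB + b - g + (a + k) = TB + (a + (b - g + k)) by omega,
    L.visB (a + (b - g + k)) (by omega)] at e2
  rw [e1, show t - g + a + k = t - g + (a + k) by omega, e2]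
  congr 1
  omega

/-- periodic run of period `b` through the same overlap -/
lemma Lvl.prd (L : Lvl x m t TB) {b g l : ℕ} (rb : Ret x m t TB b)
    (O : Ov x m t l (TB + b) b g) :
    Agree x (m + g - b) (t - g) (t - g + b) := by
  obtain ⟨hb1, hb2, -⟩ := rb
  have hgb := O.lt'
  have hgt := O.le
  have pb : ∀ s < m, x (TB + s) = x (TB + b + s) := by
    intro s hs
    rw [hb2 s hs, L.visB s hs]
  intro k hk
  have e1 := O.agree k (by omega)
  have e2 := O.agree (b + k) (by omega)
  rw [show t - g + b + k = t - g + (b + k) by omega, e1, e2,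
    show TB + b - g + k = TB + (b - g + k) by omega, pb _ (by omega)]
  congr 1
  omega

lemma size_aux {t a b g1 g2 g3 P m κ : ℕ}
    (hc : t + 1 + (a - (g1 + 1)) + (b - (max g2 g3 + 1)) ≤ P)
    (hcon : 4 * P + 20 * κ + 20 < 5 * m) (l1 : g1 ≤ t) (l3 : g2 ≤ t) (l5 : g3 + 1 ≤ a) :
    t + a + b ≤ 4 * m := by omega

lemma count_aux {t a b g1 g2 g3 P : ℕ}
    (hc : t + 1 + (a - (g1 + 1)) + (b - (max g2 g3 + 1)) ≤ P) :
    t + a + b ≤ P + g1 + max g2 g3 + 1 := by omega

set_option linter.unusedVariables false in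
lemma arith_AA {t a b g1 g2 g3 P m κ : ℕ} (hfw : m + 1 ≤ a + b) (h1 : m + 2 * g1 ≤ t + κ)
    (h2 : m + 2 * g2 ≤ t + b + 2 * a + κ) (hc : t + a + b ≤ P + g1 + max g2 g3 + 1)
    (u1 : min g1 g2 ≤ g3) (u2 : min g1 g3 ≤ g2) (u3 : min g2 g3 ≤ g1)
    (l2 : g1 < a) (l4 : g2 < b) (l5 : g3 < a)
    (l6 : g3 < b) : 5 * m ≤ 4 * P + 20 * κ + 20 := by omega

set_option linter.unusedVariables false in
lemma arith_ABA {t a b g1 g2 g3 P m κ : ℕ} (hfw : m + 1 ≤ a + b) (h1 : m + 2 * g1 ≤ t + a + κ)
    (h2 : m + 2 * g2 ≤ t + b + κ) (h3 : m + 2 * g3 ≤ t + a + b + κ)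
    (hc : t + a + b ≤ P + g1 + max g2 g3 + 1)
    (u1 : min g1 g2 ≤ g3) (u2 : min g1 g3 ≤ g2) (u3 : min g2 g3 ≤ g1)
    (l2 : g1 < a) (l4 : g2 < b) (l5 : g3 < a)
    (l6 : g3 < b) : 5 * m ≤ 4 * P + 20 * κ + 20 := by omega

set_option linter.unusedVariables false in
lemma arith_ABB {t a b g1 g2 g3 P m κ : ℕ} (hfw : m + 1 ≤ a + b) (h1 : m + 2 * g1 ≤ t + a + κ)
    (h2 : m + 2 * g2 ≤ t + a + b + κ) (h3 : m + 2 * g3 ≤ t + a + κ)
    (h4 : m + 2 * g2 ≤ t + 2 * b + κ)
    (hc : t + a + b ≤ P + g1 + max g2 g3 + 1)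
    (u1 : min g1 g2 ≤ g3) (u2 : min g1 g3 ≤ g2) (u3 : min g2 g3 ≤ g1)
    (l2 : g1 < a) (l4 : g2 < b) (l5 : g3 < a)
    (l6 : g3 < b) : 5 * m ≤ 4 * P + 20 * κ + 20 := by omega

/-- application of the hypothesis to an agreement extended to the left -/
lemma use_glue {κ m i j n n' g : ℕ}
    (hH : ∀ i j n, i < j → j ≤ 4 * m → Agree x n i j → n ≤ j + κ)
    (hij : i < j) (hj : j ≤ 4 * m) (hgi : g ≤ i) (h : Agree x n (i - g) (j - g)) (hn : g ≤ n)
    (h' : Agree x n' i j) : n' + 2 * g ≤ j + κ := by
  have h1 := h.glue hn hgi (by omega) h'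
  have h2 := hH _ _ _ (by omega) (by omega) h1
  omega

theorem level_bound [Finite α] (hnp : ∀ i j, i < j → ∃ k, x (i + k) ≠ x (j + k)) (m κ : ℕ)
    (hH : ∀ i j n, i < j → j ≤ 4 * m → Agree x n i j → n ≤ j + κ)
    (hs : cplx x (m + 1) ≤ cplx x m + 1) : 5 * m ≤ 4 * cplx x m + 20 * κ + 20 := by
  by_contra hcon
  push Not at hcon
  obtain ⟨t, TB, L⟩ := exists_lvl hnp m hs
  obtain ⟨a, ra⟩ := L.exists_ret t
  obtain ⟨b, rb⟩ := L.exists_ret TB
  have hfw := L.fw ra rb
  have ha1 := ra.1
  have hb1 := rb.1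
  have B1 := L.br
  have B2 := ra.br
  obtain ⟨g1, O12⟩ := L.exists_ov B1 B2
  have l1 := O12.le
  have l2 := O12.lt'
  have visT1 : Agree x m (t + a) t := ra.2.1
  rcases L.letters (t + a) visT1 with hx1 | hx1
  · -- case AA
    have B3 := rb.br
    obtain ⟨g2, O13⟩ := L.exists_ov B1 B3
    obtain ⟨g3, O23⟩ := L.exists_ov B2 B3
    have hc := L.count B1 B2 B3 O12 O13 O23
    have l3 := O13.le
    have hsz := size_aux hc hcon l1 l3 O23.lt
    have hA := (L.loop visT1.symm hx1.symm ra).2
    have h1 := use_glue hH (by clear * - ha1; omega) (by clear * - hsz; omega) l1 O12.agree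
      (by clear *-; omega) hA
    have h2 := hH _ _ _ (by clear * - ha1; omega) (by clear * - hsz; omega) (L.brk ra O13)
    refine absurd (arith_AA (P := cplx x m) (κ := κ) hfw ?_ ?_ (count_aux hc)
      (ov_ultra O12 O13 O23) (ov_ultra O12.symm O23 O13) (ov_ultra O13.symm O23.symm O12)
      l2 O13.lt' O23.lt O23.lt') (by clear * - hcon; omega)
    · clear * - h1; omega
    · have l4 := O13.lt'
      clear * - h2 l3 l4; omega
  · -- case AB
    have visTB : Agree x m TB (t + a) := L.visB.trans visT1.symm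
    have rb' := (L.loop visTB hx1.symm rb).1
    -- level structure with TB replaced by T1
    have L' : Lvl x m t (t + a) :=
      { visB := visT1
        hne := by rw [hx1]; exact L.hne
        first := L.first
        letters := by
          intro i hi
          rw [hx1]
          exact L.letters i hi
        det := L.det
        inf := L.inf }
    have B3 := rb'.br
    obtain ⟨g2, O13⟩ := L.exists_ov B1 B3
    obtain ⟨g3, O23⟩ := L.exists_ov B2 B3
    have hc := L.count B1 B2 B3 O12 O13 O23
    have l3 := O13.le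
    have hsz := size_aux hc hcon l1 l3 O23.lt
    have visT2 : Agree x m (t + a + b) t := rb'.2.1
    have hl5 := O23.le
    have h1 := use_glue hH (by clear * - ha1; omega) (by clear * - hsz; omega) l1 O12.agree
      (by clear *-; omega) visT1.symm
    have hj : t + a + b ≤ 4 * m := hsz
    rcases L'.letters (t + a + b) visT2 with hx2 | hx2
    · -- ABA
      have hA := (L.loop visT2.symm hx2.symm ra).2
      have h2 := use_glue hH (by clear * - ha1; omega) hj l3 O13.agree
        (by clear *-; omega) hA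
      have h3 := use_glue hH (by clear * - hb1; omega) hj hl5 O23.agree
        (by clear *-; omega) (visT1.trans visT2.symm)
      refine absurd (arith_ABA (P := cplx x m) (κ := κ) hfw h1 ?_ h3 (count_aux hc)
        (ov_ultra O12 O13 O23) (ov_ultra O12.symm O23 O13) (ov_ultra O13.symm O23.symm O12)
        l2 O13.lt' O23.lt O23.lt') (by clear * - hcon; omega)
      clear * - h2; omega
    · -- ABB
      have hB := (L.loop (visT1.trans visT2.symm) hx2.symm rb').2
      have h2 := use_glue hH (by clear * - ha1; omega) hj l3 O13.agree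
        (by clear *-; omega) visT2.symm
      have h3 := use_glue hH (by clear * - hb1; omega) hj hl5 O23.agree
        (by clear *-; omega) hB
      have h4 := hH _ _ _ (by clear * - hb1; omega) (by clear * - hsz; omega) (L'.prd rb' O13)
      refine absurd (arith_ABB (P := cplx x m) (κ := κ) hfw h1 h2 ?_ ?_ (count_aux hc)
        (ov_ultra O12 O13 O23) (ov_ultra O12.symm O23 O13) (ov_ultra O13.symm O23.symm O12)
        l2 O13.lt' O23.lt O23.lt') (by clear * - hcon; omega)
      · clear * - h3; omega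
      · clear * - h4 l3; omega

end bound

end Pool.Agent.Lib.MP_7e9a3a_nt.Cplx
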