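import Mathlib

namespace Pool.Agent.Lib.MP_7e9a3a_nt.Cplx

open MeasureTheory intervalIntegral

/-- denominators of the Pade approximations to `e` -/
def qq : ℕ → ℤ
  | 0 => 1
  | 1 => 1
  | (n + 2) => (4 * n + 6) * qq (n + 1) + qq n

/-- numerators of the Pade approximations to `e` -/
def pp : ℕ → ℤ
  | 0 => 1
  | 1 => 3
  | (n + 2) => (4 * n + 6) * pp (n + 1) + pp n

/-- the kernel `(x (1 - x))^n / n!` -/
noncomputable def ff (n : ℕ) (x : ℝ) : ℝ := (x * (1 - x)) ^ n / n.factorial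

noncomputable def JJ (n : ℕ) : ℝ := ∫ x in (0 : ℝ)..1, ff n x * Real.exp x

lemma ff_cont (n : ℕ) : Continuous (fun x => ff n x * Real.exp x) := by
  unfold ff
  fun_prop

lemma ff_mul (n : ℕ) (x : ℝ) : ff n x * (x * (1 - x)) = (n + 1) * ff (n + 1) x := by
  unfold ff
  rw [Nat.factorial_succ]
  push_cast
  field_simp
  ring

lemma ff_deriv (n : ℕ) (x : ℝ) : HasDerivAt (ff (n + 1)) (ff n x * (1 - 2 * x)) x := by
  have h1 : HasDerivAt (fun x : ℝ => x * (1 - x)) (1 - 2 * x) x := by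
    have h := (hasDerivAt_id' x).mul ((hasDerivAt_const x (1 : ℝ)).sub (hasDerivAt_id' x))
    refine HasDerivAt.congr_deriv h ?_
    simp only [Pi.sub_apply]
    ring
  have h2 := (h1.pow (n + 1)).div_const ((n + 1).factorial : ℝ)
  refine HasDerivAt.congr_deriv h2 ?_
  unfold ff
  rw [Nat.factorial_succ, Nat.add_sub_cancel]
  push_cast
  field_simp

lemma JJ_rec (n : ℕ) : JJ (n + 2) = JJ n - (4 * n + 6) * JJ (n + 1) := by
  have hF : ∀ x : ℝ, HasDerivAt (fun x => (ff (n + 2) x - ff (n + 1) x * (1 - 2 * x)) * Real.exp x)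
      ((ff (n + 2) x - ff n x + (4 * n + 6) * ff (n + 1) x) * Real.exp x) x := by
    intro x
    have h1 := ff_deriv (n + 1) x
    have h2 := ff_deriv n x
    have h3 : HasDerivAt (fun x : ℝ => 1 - 2 * x) (-2) x := by
      have h := ((hasDerivAt_const x (1 : ℝ)).sub ((hasDerivAt_id' x).const_mul 2))
      exact HasDerivAt.congr_deriv h (by ring)
    have h4 := (h1.sub (h2.mul h3)).mul (Real.hasDerivAt_exp x)
    refine HasDerivAt.congr_deriv h4 ?_
    have h5 := ff_mul n x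
    simp only [Pi.sub_apply, Pi.mul_apply]
    linear_combination 4 * Real.exp x * h5
  have hint := intervalIntegral.integral_eq_sub_of_hasDerivAt (a := 0) (b := 1)
    (fun x _ => hF x) (by
      apply Continuous.intervalIntegrable
      unfold ff
      fun_prop)
  have h0 : (ff (n + 2) 1 - ff (n + 1) 1 * (1 - 2 * 1)) * Real.exp 1
      - (ff (n + 2) 0 - ff (n + 1) 0 * (1 - 2 * 0)) * Real.exp 0 = 0 := by
    simp [ff]
  rw [h0] at hint
  have h1 : ∫ x in (0 : ℝ)..1, (ff (n + 2) x - ff n x + (4 * n + 6) * ff (n + 1) x) * Real.exp x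
      = JJ (n + 2) - JJ n + (4 * n + 6) * JJ (n + 1) := by
    unfold JJ
    rw [← intervalIntegral.integral_const_mul, ← intervalIntegral.integral_sub,
      ← intervalIntegral.integral_add]
    · congr 1
      funext x
      ring
    · exact ((ff_cont (n + 2)).sub (ff_cont n)).intervalIntegrable _ _
    · exact (continuous_const.mul (ff_cont (n + 1))).intervalIntegrable _ _
    · exact (ff_cont (n + 2)).intervalIntegrable _ _
    · exact (ff_cont n).intervalIntegrable _ _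
  rw [h1] at hint
  linarith

lemma JJ_zero : JJ 0 = Real.exp 1 - 1 := by
  unfold JJ ff
  simp [integral_exp]

lemma JJ_one : JJ 1 = 3 - Real.exp 1 := by
  have hF : ∀ x : ℝ, HasDerivAt (fun x => (-x ^ 2 + 3 * x - 3) * Real.exp x)
      (ff 1 x * Real.exp x) x := by
    intro x
    have h1 : HasDerivAt (fun x : ℝ => -x ^ 2 + 3 * x - 3) (-(2 * x) + 3) x := by
      have h := (((hasDerivAt_pow 2 x).neg).add ((hasDerivAt_id' x).const_mul 3)).sub_const 3
      refine HasDerivAt.congr_deriv h ?_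
      push_cast
      ring
    have h4 := h1.mul (Real.hasDerivAt_exp x)
    refine HasDerivAt.congr_deriv h4 ?_
    simp only [ff, Nat.factorial_one, pow_one]
    push_cast
    ring
  have hint := intervalIntegral.integral_eq_sub_of_hasDerivAt (a := 0) (b := 1)
    (fun x _ => hF x) ((ff_cont 1).intervalIntegrable _ _)
  unfold JJ
  rw [hint]
  simp
  ring

lemma JJ_pos (n : ℕ) : 0 < JJ n := by
  unfold JJ
  apply intervalIntegral.intervalIntegral_pos_of_pos_on
  · exact (ff_cont n).intervalIntegrable _ _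
  · intro x hx
    unfold ff
    have h1 : 0 < x * (1 - x) := mul_pos hx.1 (by linarith [hx.2])
    positivity
  · norm_num

lemma JJ_eq (n : ℕ) : (-1) ^ n * JJ n = qq n * Real.exp 1 - pp n ∧
    (-1) ^ (n + 1) * JJ (n + 1) = qq (n + 1) * Real.exp 1 - pp (n + 1) := by
  induction n with
  | zero =>
    rw [JJ_zero, JJ_one]
    simp only [qq, pp]
    push_cast
    constructor <;> ring
  | succ n ih =>
    refine ⟨ih.2, ?_⟩
    rw [JJ_rec]
    simp only [qq, pp]
    push_cast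
    have h1 := ih.1
    have h2 := ih.2
    have e1 : (-1 : ℝ) ^ (n + 1) = -(-1) ^ n := by ring
    have e2 : (-1 : ℝ) ^ (n + 1 + 1) = (-1) ^ n := by ring
    rw [e1] at h2
    rw [e2]
    linear_combination h1 + (4 * (n : ℝ) + 6) * h2

lemma det_eq (n : ℕ) : pp (n + 1) * qq n - pp n * qq (n + 1) = 2 * (-1) ^ n := by
  induction n with
  | zero => simp [qq, pp]
  | succ n ih =>
    simp only [qq, pp]
    have : (-1 : ℤ) ^ (n + 1) = -(-1) ^ n := by ring
    rw [this]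
    linear_combination -ih

lemma qq_pos (n : ℕ) : 0 < qq n ∧ 0 < qq (n + 1) ∧ qq n ≤ qq (n + 1) := by
  induction n with
  | zero => simp [qq]
  | succ n ih =>
    obtain ⟨h1, h2, h3⟩ := ih
    have hn : (0 : ℤ) ≤ n := by positivity
    have e : qq (n + 1 + 1) = (4 * n + 6) * qq (n + 1) + qq n := rfl
    refine ⟨h2, ?_, ?_⟩
    · rw [e]; positivity
    · rw [e]; nlinarith

lemma qq_le (n : ℕ) : qq (n + 1) ≤ (4 * n + 3) * qq n := by
  cases n with
  | zero => simp [qq]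
  | succ n =>
    obtain ⟨h1, h2, h3⟩ := qq_pos n
    have e : qq (n + 1 + 1) = (4 * n + 6) * qq (n + 1) + qq n := rfl
    rw [e]
    push_cast
    nlinarith

lemma qq_ge (n : ℕ) : 2 ^ n ≤ qq (n + 1) := by
  induction n with
  | zero => simp [qq]
  | succ n ih =>
    obtain ⟨h1, h2, h3⟩ := qq_pos n
    have hn : (0 : ℤ) ≤ n := by positivity
    have e : qq (n + 1 + 1) = (4 * n + 6) * qq (n + 1) + qq n := rfl
    rw [e, pow_succ]
    nlinarith

lemma JJ_le (n : ℕ) : JJ n * qq (n + 1) ≤ 2 := by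
  obtain ⟨h1, h2⟩ := JJ_eq n
  have h3 := det_eq n
  have h4 : ((pp (n + 1) : ℝ)) * qq n - pp n * qq (n + 1) = 2 * (-1) ^ n := by exact_mod_cast h3
  have e1 : (-1 : ℝ) ^ (n + 1) = -(-1) ^ n := by ring
  rw [e1] at h2
  have h5 : (-1 : ℝ) ^ n * (JJ n * qq (n + 1) + JJ (n + 1) * qq n) = (-1) ^ n * 2 := by
    linear_combination (qq (n + 1) : ℝ) * h1 - (qq n : ℝ) * h2 + h4
  have h6 : JJ n * qq (n + 1) + JJ (n + 1) * qq n = 2 := by
    apply mul_left_cancel₀ (pow_ne_zero n (by norm_num : (-1 : ℝ) ≠ 0)) h5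
  have h7 : 0 ≤ JJ (n + 1) * qq n := by
    have := (qq_pos n).1
    have h8 : (0 : ℝ) < qq n := by exact_mod_cast this
    have := JJ_pos (n + 1)
    positivity
  linarith

/-- Irrationality measure of `e`, with a logarithmic loss. -/
theorem e_measure (Q : ℕ) (hQ : 1 ≤ Q) (P : ℤ) :
    1 ≤ |(Q : ℝ) * Real.exp 1 - P| * (120 * Q * (Nat.log 2 Q + 1)) := by
  have hex : ∃ n, 4 * (Q : ℤ) ≤ qq (n + 1) := by
    obtain ⟨n, hn⟩ := pow_unbounded_of_one_lt (4 * (Q : ℤ)) (by norm_num : (1 : ℤ) < 2)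
    exact ⟨n, hn.le.trans (qq_ge n)⟩
  classical
  set n := Nat.find hex with hn
  have hn1 : 4 * (Q : ℤ) ≤ qq (n + 1) := Nat.find_spec hex
  have hn0 : n ≠ 0 := by
    intro h
    rw [h] at hn1
    simp only [qq] at hn1
    omega
  obtain ⟨k, hk⟩ := Nat.exists_eq_succ_of_ne_zero hn0
  have hn2 : qq n < 4 * (Q : ℤ) := by
    have := Nat.find_min hex (m := k) (by omega)
    push Not at this
    rw [hk]; exact this
  -- size of n
  have hklog : k ≤ Nat.log 2 Q + 2 := by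
    have h1 : (2 : ℤ) ^ k < 4 * Q := by
      have := qq_ge k
      rw [hk] at hn2
      exact lt_of_le_of_lt this hn2
    have h2 : 2 ^ k < 4 * Q := by exact_mod_cast h1
    have h3 : Q < 2 ^ (Nat.log 2 Q + 1) := Nat.lt_pow_succ_log_self (by norm_num) Q
    have h4 : 2 ^ k < 2 ^ (Nat.log 2 Q + 3) := by
      calc 2 ^ k < 4 * Q := h2
        _ < 4 * 2 ^ (Nat.log 2 Q + 1) := by omega
        _ = 2 ^ (Nat.log 2 Q + 3) := by ring
    have h5 := (Nat.pow_lt_pow_iff_right (by norm_num : 1 < 2)).1 h4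
    omega
  have hQr : (0 : ℝ) < Q := by exact_mod_cast hQ
  have hq1 : (0 : ℝ) < qq (n + 1) := by exact_mod_cast (qq_pos n).2.1
  have hqn : (0 : ℝ) < qq n := by exact_mod_cast (qq_pos n).1
  have hq12 : (qq n : ℝ) ≤ qq (n + 1) := by exact_mod_cast (qq_pos n).2.2
  have hq23 : (qq (n + 1) : ℝ) ≤ qq (n + 1 + 1) := by exact_mod_cast (qq_pos (n + 1)).2.2
  have hn1r : 4 * (Q : ℝ) ≤ qq (n + 1) := by exact_mod_cast hn1
  have hn2r : (qq n : ℝ) < 4 * Q := by exact_mod_cast hn2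
  have hqle : (qq (n + 1) : ℝ) ≤ (4 * n + 3) * qq n := by exact_mod_cast qq_le n
  have hJ0 := JJ_le n
  have hJ1 := JJ_le (n + 1)
  have hJp0 := JJ_pos n
  have hJp1 := JJ_pos (n + 1)
  -- general step
  have step : ∀ (q p : ℤ) (J s : ℝ), 0 < J → s * J = q * Real.exp 1 - p → |s| = 1 →
      (0 : ℝ) < q → (q : ℝ) ≤ qq (n + 1) → Q * J ≤ 1 / 2 → P * q - Q * p ≠ 0 →
      1 ≤ 2 * qq (n + 1) * |(Q : ℝ) * Real.exp 1 - P| := by
    intro q p J s hJ hs hs1 hq hqq hQJ hne
    have h1 : (1 : ℝ) ≤ |(P : ℝ) * q - Q * p| := by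
      have : 1 ≤ |P * q - Q * p| := Int.one_le_abs hne
      exact_mod_cast this
    have h2 : (P : ℝ) * q - Q * p = -(q * (Q * Real.exp 1 - P)) + Q * (s * J) := by
      rw [hs]; ring
    have h3 : |(P : ℝ) * q - Q * p| ≤ q * |(Q : ℝ) * Real.exp 1 - P| + Q * J := by
      rw [h2]
      refine (abs_add_le _ _).trans ?_
      rw [abs_neg, abs_mul, abs_mul, abs_mul, hs1, abs_of_pos hq, abs_of_pos hJ, abs_of_pos hQr,
        one_mul]
    have h4 : q * |(Q : ℝ) * Real.exp 1 - P| ≤ qq (n + 1) * |(Q : ℝ) * Real.exp 1 - P| := by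
      gcongr
    linarith
  have hQJ0 : (Q : ℝ) * JJ n ≤ 1 / 2 := by
    have : 4 * (Q : ℝ) * JJ n ≤ 2 := by
      calc 4 * (Q : ℝ) * JJ n ≤ qq (n + 1) * JJ n := by gcongr
        _ ≤ 2 := by linarith
    linarith
  have hQJ1 : (Q : ℝ) * JJ (n + 1) ≤ 1 / 2 := by
    have : 4 * (Q : ℝ) * JJ (n + 1) ≤ 2 := by
      calc 4 * (Q : ℝ) * JJ (n + 1) ≤ qq (n + 1 + 1) * JJ (n + 1) := by
            gcongr; linarith
        _ ≤ 2 := by linarith
    linarith
  obtain ⟨e0, e1⟩ := JJ_eq n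
  have main : 1 ≤ 2 * qq (n + 1) * |(Q : ℝ) * Real.exp 1 - P| := by
    by_cases h0 : P * qq n - Q * pp n = 0
    · apply step (qq (n + 1)) (pp (n + 1)) (JJ (n + 1)) ((-1) ^ (n + 1)) hJp1 e1 (by simp)
        hq1 le_rfl hQJ1
      intro h1
      have hd := det_eq n
      have h2 : (Q : ℤ) * (pp (n + 1) * qq n - pp n * qq (n + 1)) = 0 := by
        linear_combination (-(qq n)) * h1 + (qq (n + 1)) * h0
      rw [hd] at h2
      have h3 : (Q : ℤ) ≠ 0 := by omega
      have h4 : (2 : ℤ) * (-1) ^ n ≠ 0 := by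
        apply mul_ne_zero (by norm_num)
        exact pow_ne_zero n (by norm_num)
      exact (mul_ne_zero h3 h4) h2
    · exact step (qq n) (pp n) (JJ n) ((-1) ^ n) hJp0 e0 (by simp) hqn hq12 hQJ0 h0
  have hkr : (k : ℝ) ≤ Nat.log 2 Q + 2 := by exact_mod_cast hklog
  have hnk : (n : ℝ) = k + 1 := by rw [hk]; push_cast; ring
  have hfin : 2 * (qq (n + 1) : ℝ) ≤ 120 * Q * (Nat.log 2 Q + 1) := by
    have h1 : (4 * (n : ℝ) + 3) ≤ 15 * (Nat.log 2 Q + 1) := by
      rw [hnk]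
      have : (0 : ℝ) ≤ Nat.log 2 Q := by positivity
      linarith
    calc 2 * (qq (n + 1) : ℝ) ≤ 2 * ((4 * n + 3) * qq n) := by linarith
      _ ≤ 2 * ((15 * (Nat.log 2 Q + 1)) * (4 * Q)) := by gcongr
      _ = 120 * Q * (Nat.log 2 Q + 1) := by ring
  calc 1 ≤ 2 * qq (n + 1) * |(Q : ℝ) * Real.exp 1 - P| := main
    _ ≤ (120 * Q * (Nat.log 2 Q + 1)) * |(Q : ℝ) * Real.exp 1 - P| := by gcongr
    _ = _ := by ring

end Pool.Agent.Lib.MP_7e9a3a_nt.Cplx
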