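import Pool.Agent.Lib.MP_7e9a3a_nt.Cplx.Bound
import Pool.Agent.Lib.MP_7e9a3a_nt.Cplx.Euler

namespace Pool.Agent.Lib.MP_7e9a3a_nt.Cplx

section words

variable {α : Type*} {x : ℕ → α}

theorem cplx_bound [Finite α] (hnp : ∀ i j, i < j → ∃ k, x (i + k) ≠ x (j + k)) (N κ : ℕ)
    (hH : ∀ i j n, i < j → j ≤ 4 * N → Agree x n i j → n ≤ j + κ) :
    5 * N ≤ 4 * cplx x N + 20 * κ + 21 := by
  have key : ∀ m, m ≤ N → 5 * m ≤ 4 * cplx x m + 20 * κ + 21 := by
    intro m
    induction m with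
    | zero => intro _; omega
    | succ m ih =>
      intro hm
      have h1 := ih (by omega)
      have h2 := cplx_lt_succ hnp m
      by_cases hs : cplx x (m + 1) ≤ cplx x m + 1
      · have h3 := level_bound hnp m κ (fun i j n hij hj hag => hH i j n hij (by omega) hag) hs
        omega
      · omega
  exact key N le_rfl

end words

section digits

variable (b : ℕ) [NeZero b]

/-- the digits of the fractional part of `e` -/
noncomputable def edig : ℕ → Fin b := Real.digits (Int.fract (Real.exp 1)) b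

lemma shift_eq (hb : 2 ≤ b) (i : ℕ) : ∃ N : ℤ, (b : ℝ) ^ i * Int.fract (Real.exp 1)
    = N + Real.ofDigits (fun k => edig b (k + i)) := by
  have hf : Int.fract (Real.exp 1) ∈ Set.Ico (0 : ℝ) 1 :=
    ⟨Int.fract_nonneg _, Int.fract_lt_one _⟩
  have h1 := Real.ofDigits_digits (b := b) (by omega) hf
  have h2 := Real.ofDigits_eq_sum_add_ofDigits (edig b) i
  have h3 := Real.ofDigits_digits_sum_eq (b := b) hf i
  refine ⟨(⌊(b : ℝ) ^ i * Int.fract (Real.exp 1)⌋₊ : ℤ), ?_⟩
  have hb0 : (0 : ℝ) < (b : ℝ) ^ i := by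
    have : (0 : ℝ) < b := by exact_mod_cast (by omega : 0 < b)
    positivity
  have h4 : Int.fract (Real.exp 1) = (∑ k ∈ Finset.range i, Real.ofDigitsTerm (edig b) k) +
      ((b : ℝ) ^ i)⁻¹ * Real.ofDigits (fun k => edig b (k + i)) := by
    rw [← h2]
    exact h1.symm
  calc (b : ℝ) ^ i * Int.fract (Real.exp 1)
      = (b : ℝ) ^ i * ((∑ k ∈ Finset.range i, Real.ofDigitsTerm (edig b) k) +
        ((b : ℝ) ^ i)⁻¹ * Real.ofDigits (fun k => edig b (k + i))) := by rw [← h4]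
    _ = (b : ℝ) ^ i * (∑ k ∈ Finset.range i, Real.ofDigitsTerm (edig b) k) +
        Real.ofDigits (fun k => edig b (k + i)) := by
        rw [mul_add, ← mul_assoc, mul_inv_cancel₀ hb0.ne', one_mul]
    _ = _ := by
        have h5 : (b : ℝ) ^ i * (∑ k ∈ Finset.range i, Real.ofDigitsTerm (edig b) k)
            = (⌊(b : ℝ) ^ i * Int.fract (Real.exp 1)⌋₊ : ℝ) := h3
        rw [h5]
        push_cast
        rfl

lemma agree_bound (hb : 2 ≤ b) {i j n : ℕ} (hij : i < j) (h : Agree (edig b) n i j) :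
    b ^ n ≤ 120 * b ^ j * (b * j + 1) := by
  obtain ⟨Ni, hi⟩ := shift_eq b hb i
  obtain ⟨Nj, hj⟩ := shift_eq b hb j
  have hd : |Real.ofDigits (fun k => edig b (k + j)) - Real.ofDigits (fun k => edig b (k + i))|
      ≤ ((b : ℝ) ^ n)⁻¹ := by
    apply Real.abs_ofDigits_sub_ofDigits_le
    intro k hk
    rw [add_comm k j, add_comm k i]
    exact (h k hk).symm
  have hpow : b ^ i < b ^ j := Nat.pow_lt_pow_right (by omega) hij
  set Q : ℕ := b ^ j - b ^ i with hQ
  have hQ1 : 1 ≤ Q := by omega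
  have hQle : Q ≤ b ^ j := Nat.sub_le _ _
  have hQr : (Q : ℝ) = (b : ℝ) ^ j - (b : ℝ) ^ i := by
    rw [hQ, Nat.cast_sub hpow.le]; push_cast; rfl
  have hmeas := e_measure Q hQ1 (Q * ⌊Real.exp 1⌋ + (Nj - Ni))
  have heq : (Q : ℝ) * Real.exp 1 - ((Q * ⌊Real.exp 1⌋ + (Nj - Ni) : ℤ) : ℝ)
      = Real.ofDigits (fun k => edig b (k + j)) - Real.ofDigits (fun k => edig b (k + i)) := by
    have hfr : Real.exp 1 = ⌊Real.exp 1⌋ + Int.fract (Real.exp 1) :=
      (Int.floor_add_fract _).symm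
    push_cast
    have : (Q : ℝ) * Real.exp 1 = Q * ⌊Real.exp 1⌋ + Q * Int.fract (Real.exp 1) := by
      rw [← mul_add, ← hfr]
    rw [this, hQr, sub_mul _ _ (Int.fract (Real.exp 1)), hi, hj]
    ring
  rw [heq] at hmeas
  have hb0 : (0 : ℝ) < (b : ℝ) ^ n := by
    have : (0 : ℝ) < b := by exact_mod_cast (by omega : 0 < b)
    positivity
  have hlog : Nat.log 2 Q ≤ b * j := by
    calc Nat.log 2 Q ≤ Nat.log 2 (b ^ j) := Nat.log_mono_right hQle
      _ ≤ Nat.log 2 ((2 ^ b) ^ j) := Nat.log_mono_right (Nat.pow_le_pow_left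
          Nat.lt_two_pow_self.le j)
      _ = b * j := by rw [← pow_mul, Nat.log_pow (by norm_num)]
  have hfin : (b : ℝ) ^ n ≤ 120 * (b : ℝ) ^ j * (b * j + 1) := by
    have h1 : 1 ≤ ((b : ℝ) ^ n)⁻¹ * (120 * (b : ℝ) ^ j * (b * j + 1)) := by
      calc 1 ≤ _ := hmeas
        _ ≤ ((b : ℝ) ^ n)⁻¹ * (120 * (b : ℝ) ^ j * (b * j + 1)) := by
          gcongr
          · exact_mod_cast hQle
          · exact_mod_cast hlog
    rw [inv_mul_eq_div, le_div_iff₀ hb0, one_mul] at h1
    exact h1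
  exact_mod_cast hfin

lemma edig_np (hb : 2 ≤ b) (i j : ℕ) (hij : i < j) : ∃ k, edig b (i + k) ≠ edig b (j + k) := by
  by_contra hcon
  push Not at hcon
  obtain ⟨n, hn⟩ := pow_unbounded_of_one_lt (120 * b ^ j * (b * j + 1)) (by omega : 1 < b)
  have := agree_bound b hb (n := n) hij (fun k _ => hcon k)
  omega

lemma edig_H (hb : 2 ≤ b) (N i j n : ℕ) (hij : i < j) (hj : j ≤ 4 * N)
    (h : Agree (edig b) n i j) : n ≤ j + Nat.log b (120 * (4 * b * N + 1)) := by
  have h1 := agree_bound b hb hij h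
  by_cases hn : n ≤ j
  · omega
  · push Not at hn
    have h2 : b ^ (n - j) ≤ 120 * (4 * b * N + 1) := by
      have h3 : b ^ n = b ^ (n - j) * b ^ j := by
        rw [← pow_add]; congr 1; omega
      rw [h3] at h1
      have h4 : 0 < b ^ j := by positivity
      have h5 : b ^ (n - j) * b ^ j ≤ (120 * (b * j + 1)) * b ^ j := by
        calc _ ≤ _ := h1
          _ = _ := by ring
      have h6 := Nat.le_of_mul_le_mul_right h5 h4
      calc b ^ (n - j) ≤ 120 * (b * j + 1) := h6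
        _ ≤ 120 * (b * (4 * N) + 1) := by gcongr
        _ = _ := by ring
    have h7 := Nat.le_log_of_pow_le (by omega : 1 < b) h2
    omega

theorem final (hb : 2 ≤ b) (n : ℕ) (hn : 1 ≤ n) :
    (5 / 4 : ℝ) * n - 10 * Real.log n - (10 * Real.log (600 * b) + 6) ≤ cplx (edig b) n := by
  have h1 := cplx_bound (edig_np b hb) n (Nat.log b (120 * (4 * b * n + 1)))
    (fun i j l hij hj hag => edig_H b hb n i j l hij hj hag)
  set κ := Nat.log b (120 * (4 * b * n + 1)) with hκ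
  have h2 : (5 : ℝ) * n ≤ 4 * cplx (edig b) n + 20 * κ + 21 := by exact_mod_cast h1
  have hbr : (2 : ℝ) ≤ b := by exact_mod_cast hb
  have hnr : (1 : ℝ) ≤ n := by exact_mod_cast hn
  have h3 : (κ : ℝ) ≤ 2 * (Real.log (600 * b) + Real.log n) := by
    have h4 : (b : ℝ) ^ κ ≤ 120 * (4 * b * n + 1) := by
      have : b ^ κ ≤ 120 * (4 * b * n + 1) := Nat.pow_log_le_self b (by positivity)
      exact_mod_cast this
    have h5 : (2 : ℝ) ^ κ ≤ 600 * b * n := by
      calc (2 : ℝ) ^ κ ≤ (b : ℝ) ^ κ := by gcongr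
        _ ≤ 120 * (4 * b * n + 1) := h4
        _ ≤ 600 * b * n := by nlinarith
    have h6 := Real.log_le_log (by positivity) h5
    rw [Real.log_pow, Real.log_mul (by positivity) (by positivity)] at h6
    have h7 : (1 : ℝ) / 2 ≤ Real.log 2 := by
      have := Real.log_two_gt_d9
      linarith
    have h8 : (0 : ℝ) ≤ κ := by positivity
    nlinarith
  linarith

end digits

end Pool.Agent.Lib.MP_7e9a3a_nt.Cplx
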