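import Mathlib

namespace Pool.Agent.Lib.MP_7e9a3a_nt.Cplx

/-- case AA -/
lemma up_AA {t a b g1 g2 P m K R : ℕ} (hfw : m + 1 ≤ a + b) (h1 : m + 2 * g1 ≤ t + K)
    (h2 : m + 2 * g2 ≤ t + b + 2 * a + K) (hc : t + a + b ≤ P + g1 + g2 + 1)
    (u : min g1 g2 ≤ 0) (l4 : g2 < b)
    (hR : P + 1 + 2 * min a b ≤ R) : 3 * (m + 1 + min a b) ≤ 2 * R + 20 * K + 20 := by omega

lemma up_ABA {t a b g1 g2 P m K R : ℕ} (hfw : m + 1 ≤ a + b) (h1 : m + 2 * g1 ≤ t + a + K)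
    (h2 : m + 2 * g2 ≤ t + b + K) (hc : t + a + b ≤ P + g1 + g2 + 1)
    (u : min g1 g2 ≤ 0)
    (hR : P + 1 + 2 * min a b ≤ R) : 3 * (m + 1 + min a b) ≤ 2 * R + 20 * K + 20 := by omega

lemma up_ABB {t a b g1 g2 P m K R : ℕ} (hfw : m + 1 ≤ a + b) (h1 : m + 2 * g1 ≤ t + a + K)
    (h2 : m + 2 * g2 ≤ t + a + b + K) (h3 : m ≤ t + a + K)
    (h4 : m + 2 * g2 ≤ t + 2 * b + K) (hc : t + a + b ≤ P + g1 + g2 + 1)
    (u : min g1 g2 ≤ 0) (l4 : g2 < b)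
    (hR : P + 1 + 2 * min a b ≤ R) : 3 * (m + 1 + min a b) ≤ 2 * R + 20 * K + 20 := by omega

/-- case N, level `m + min g1 b`, when `m ≤ t + b + K` -/
lemma up_N1 {t a b g1 P m K R : ℕ} (hfw : m + 1 ≤ a + b) (h1 : m + 2 * g1 ≤ t + a + K)
    (hb : m ≤ t + b + K) (ha : m ≤ t + a + K) (hc : t + a + b ≤ P + g1 + 1)
    (hR : P + 1 + 2 * min g1 b ≤ R) : 3 * (m + 1 + min g1 b) ≤ 2 * R + 20 * K + 20 := by omega

/-- case N, level `m + min g1 b`, when `a < b` -/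
lemma up_N2 {t a b g1 P m K R : ℕ} (hfw : m + 1 ≤ a + b) (h1 : m + 2 * g1 ≤ t + a + K)
    (hab : a < b) (ha : m ≤ t + a + K) (hc : t + a + b ≤ P + g1 + 1)
    (hR : P + 1 + 2 * min g1 b ≤ R) : 3 * (m + 1 + min g1 b) ≤ 2 * R + 20 * K + 20 := by omega

/-- case N with a short block after a long one -/
lemma up_N3 {t a b g1 P m K R e : ℕ} (hfw : m + 1 ≤ a + b) (h1 : m + 2 * g1 ≤ t + a + K)
    (h3 : m + e ≤ t + a + b + K) (h4 : m ≤ t + 2 * b + K) (hc : t + a + b ≤ P + g1 + 1)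
    (hR : P + 1 + e + min g1 e + b ≤ R) : 3 * (m + 1 + e) ≤ 2 * R + 20 * K + 20 := by omega

end Pool.Agent.Lib.MP_7e9a3a_nt.Cplx
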