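import Pool.Agent.Lib.MP_7e9a3a_nt.Cplx.H8Up
import Pool.Agent.Lib.MP_7e9a3a_nt.Cplx.Final

/-!
The block complexity of `e` is at least `3 n / 2 - 20 log n - C` for infinitely many `n`.
-/

namespace Pool.Agent.Lib.MP_7e9a3a_nt.Cplx

section words

variable {α : Type*} {x : ℕ → α}

theorem word_limsup [Finite α] (hnp : ∀ i j, i < j → ∃ k, x (i + k) ≠ x (j + k)) (κ : ℕ → ℕ)
    (hmono : Monotone κ) (hκ : ∀ C, ∃ N1, ∀ N, N1 ≤ N → C + 20 * κ N < N)
    (hH : ∀ N i j n, i < j → j ≤ 4 * N → Agree x n i j → n ≤ j + κ N) (N0 : ℕ) :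
    ∃ M, N0 ≤ M ∧ 3 * M ≤ 2 * cplx x M + 20 * κ (2 * M) + 20 := by
  by_contra hcon
  push Not at hcon
  -- a level with `s ≤ 1`
  obtain ⟨n0, hn0, hs0⟩ : ∃ n, N0 ≤ n ∧ cplx x (n + 1) ≤ cplx x n + 1 := by
    by_contra h
    push Not at h
    have key : ∀ d, 2 * d ≤ cplx x (N0 + d) := by
      intro d
      induction d with
      | zero => simp
      | succ d ih =>
        have := h (N0 + d) (by omega)
        rw [show N0 + (d + 1) = N0 + d + 1 by omega]
        omega
    have h1 := key (3 * N0)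
    have h2 := hcon (N0 + 3 * N0) (by omega)
    omega
  -- a later level with `s ≥ 2`
  have hex : ∃ d, cplx x (n0 + d + 1) + 2 ≤ cplx x (n0 + d + 2) := by
    by_contra h
    push Not at h
    have key : ∀ d, cplx x (n0 + d) ≤ cplx x n0 + d := by
      intro d
      induction d with
      | zero => simp
      | succ d ih =>
        rcases Nat.eq_zero_or_pos d with h0 | h0
        · subst h0; simpa using hs0
        · have := h (d - 1)
          rw [show n0 + (d - 1) + 1 = n0 + d by omega,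
            show n0 + (d - 1) + 2 = n0 + (d + 1) by omega] at this
          omega
    obtain ⟨N1, hN1⟩ := hκ (4 * cplx x n0 + 21 + n0)
    have h1 := hN1 (n0 + N1) (by omega)
    have h2 := key N1
    have h3 := cplx_bound hnp (n0 + N1) (κ (n0 + N1))
      (fun i j n hij hj hag => hH (n0 + N1) i j n hij hj hag)
    omega
  classical
  set d := Nat.find hex with hd
  have hd1 : cplx x (n0 + d + 1) + 2 ≤ cplx x (n0 + d + 2) := Nat.find_spec hex
  have hd2 : cplx x (n0 + d + 1) ≤ cplx x (n0 + d) + 1 := by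
    rcases Nat.eq_zero_or_pos d with h0 | h0
    · rw [h0]; simpa using hs0
    · have := Nat.find_min hex (m := d - 1) (by omega)
      rw [show n0 + (d - 1) + 1 = n0 + d by omega,
        show n0 + (d - 1) + 2 = n0 + d + 1 by omega] at this
      omega
  obtain ⟨M, hM1, hM2, hM3⟩ := level_up hnp (n0 + d) (κ (2 * (n0 + d)))
    (fun i j n hij hj hag => hH _ i j n hij (by omega) hag) hd2 hd1
  have h1 := hcon M (by omega)
  have h2 : κ (2 * (n0 + d)) ≤ κ (2 * M) := hmono (by omega)
  omega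

end words

section digits

variable (b : ℕ) [NeZero b]

/-- the slack -/
def slack (N : ℕ) : ℕ := Nat.log b (120 * (4 * b * N + 1))

lemma slack_mono : Monotone (slack b) := by
  intro N N' h
  unfold slack
  exact Nat.log_mono_right (by gcongr)

lemma slack_le (hb : 2 ≤ b) (N : ℕ) (hN : 1 ≤ N) :
    (slack b N : ℝ) ≤ 2 * (Real.log (600 * b) + Real.log N) := by
  have hbr : (2 : ℝ) ≤ b := by exact_mod_cast hb
  have hnr : (1 : ℝ) ≤ N := by exact_mod_cast hN
  set κ := slack b N with hκ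
  have h4 : (b : ℝ) ^ κ ≤ 120 * (4 * b * N + 1) := by
    have : b ^ κ ≤ 120 * (4 * b * N + 1) := Nat.pow_log_le_self b (by positivity)
    exact_mod_cast this
  have h5 : (2 : ℝ) ^ κ ≤ 600 * b * N := by
    calc (2 : ℝ) ^ κ ≤ (b : ℝ) ^ κ := by gcongr
      _ ≤ 120 * (4 * b * N + 1) := h4
      _ ≤ 600 * b * N := by nlinarith
  have h6 := Real.log_le_log (by positivity) h5
  rw [Real.log_pow, Real.log_mul (by positivity) (by positivity)] at h6
  have h7 : (1 : ℝ) / 2 ≤ Real.log 2 := by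
    have := Real.log_two_gt_d9
    linarith
  have h8 : (0 : ℝ) ≤ κ := by positivity
  nlinarith

lemma slack_small (hb : 2 ≤ b) (C : ℕ) : ∃ N1, ∀ N, N1 ≤ N → C + 20 * slack b N < N := by
  have h1 := Real.isLittleO_log_id_atTop.bound (show (0 : ℝ) < 1 / 80 by norm_num)
  have h2 := tendsto_natCast_atTop_atTop.eventually h1
  have h3 : ∀ᶠ N : ℕ in Filter.atTop, (2 * (C + 40 * Real.log (600 * b) + 1) : ℝ) ≤ N :=
    tendsto_natCast_atTop_atTop.eventually (Filter.eventually_ge_atTop _)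
  obtain ⟨N1, hN1⟩ := Filter.eventually_atTop.1 (h2.and (h3.and (Filter.eventually_ge_atTop 1)))
  refine ⟨N1, fun N hN => ?_⟩
  obtain ⟨h4, h5, h6⟩ := hN1 N hN
  have h7 := slack_le b hb N h6
  have hnr : (1 : ℝ) ≤ N := by exact_mod_cast h6
  have h8 : Real.log N ≤ 1 / 80 * N := by
    have h9 : ‖Real.log (N : ℝ)‖ ≤ 1 / 80 * ‖(N : ℝ)‖ := h4
    rw [Real.norm_of_nonneg (Real.log_nonneg hnr), Real.norm_of_nonneg (by linarith)] at h9
    exact h9
  have h10 : ((C + 20 * slack b N : ℕ) : ℝ) < N := by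
    push_cast
    linarith
  exact_mod_cast h10

/-- The number of blocks of length `n` in the base `b` expansion of `e` is at least
`3 n / 2 - 20 log n - C` for infinitely many `n`. -/
theorem final_limsup (hb : 2 ≤ b) : ∃ C : ℝ, ∀ N : ℕ, ∃ n, N ≤ n ∧
    (3 / 2 : ℝ) * n - 20 * Real.log n - C ≤ cplx (edig b) n := by
  refine ⟨20 * Real.log (600 * b) + 20 * Real.log 2 + 10, fun N => ?_⟩
  obtain ⟨M, hM1, hM2⟩ := word_limsup (edig_np b hb) (slack b) (slack_mono b) (slack_small b hb)
    (fun N i j n hij hj hag => edig_H b hb N i j n hij hj hag) (N + 1)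
  refine ⟨M, by omega, ?_⟩
  have h1 : (3 : ℝ) * M ≤ 2 * cplx (edig b) M + 20 * slack b (2 * M) + 20 := by
    exact_mod_cast hM2
  have h2 := slack_le b hb (2 * M) (by omega)
  have hMr : (1 : ℝ) ≤ M := by exact_mod_cast (by omega : 1 ≤ M)
  have h3 : Real.log ((2 * M : ℕ) : ℝ) = Real.log 2 + Real.log M := by
    push_cast
    rw [Real.log_mul (by norm_num) (by linarith)]
  rw [h3] at h2
  linarith

end digits

end Pool.Agent.Lib.MP_7e9a3a_nt.Cplx
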