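import Pool.Agent.Lib.MP_7e9a3a_nt.Cplx.Bound

/-!
Growth of the complexity from several right special blocks.
-/

namespace Pool.Agent.Lib.MP_7e9a3a_nt.Cplx

open Finset

section grow

variable {α : Type*} {x : ℕ → α}

/-- `k` distinct right special blocks of length `n` give at least `k` more blocks of
length `n + 1`. -/
lemma cplx_grow [Finite α] {ι : Type*} [Fintype ι] (n : ℕ) (p q : ι → ℕ)
    (hpq : ∀ i, Agree x n (p i) (q i)) (hne : ∀ i, x (p i + n) ≠ x (q i + n))
    (hd : ∀ i j, i ≠ j → ¬ Agree x n (q i) (q j)) :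
    cplx x n + Fintype.card ι ≤ cplx x (n + 1) := by
  classical
  set S := Set.range (block x (n + 1)) with hS
  have hSfin : S.Finite := finite_range (n + 1)
  set Q : Set (Fin (n + 1) → α) := Set.range (fun i => block x (n + 1) (q i)) with hQ
  have hQfin : Q.Finite := Set.toFinite _
  have hQS : Q ⊆ S := by
    rintro w ⟨i, rfl⟩
    exact ⟨q i, rfl⟩
  have hinj : Function.Injective (fun i => block x (n + 1) (q i)) := by
    intro i j h
    by_contra hij
    exact hd i j hij ((block_eq_iff.1 h).mono (by omega))
  have hQcard : Q.ncard = Fintype.card ι := by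
    rw [hQ, ← Set.image_univ, Set.ncard_image_of_injective _ hinj, Set.ncard_univ,
      Nat.card_eq_fintype_card]
  have himg : restr n '' (S \ Q) = Set.range (block x n) := by
    apply le_antisymm
    · rw [← restr_image]
      exact Set.image_mono Set.sdiff_subset
    · rintro w ⟨i, rfl⟩
      by_cases h : block x (n + 1) i ∈ Q
      · obtain ⟨j, hj⟩ := h
        have hij := block_eq_iff.1 hj
        refine ⟨block x (n + 1) (p j), ⟨⟨p j, rfl⟩, ?_⟩, ?_⟩
        · rintro ⟨l, hl⟩
          have hl' := block_eq_iff.1 hl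
          by_cases hjl : j = l
          · subst hjl
            exact hne j (hl' n (by omega)).symm
          · exact hd l j (Ne.symm hjl) ((hl'.mono (by omega)).trans (hpq j))
        · rw [restr_block]
          exact block_eq_iff.2 ((hpq j).trans (hij.mono (by omega)))
      · exact ⟨block x (n + 1) i, ⟨⟨i, rfl⟩, h⟩, restr_block n i⟩
  have h1 : (S \ Q).ncard + Q.ncard = S.ncard := by
    have := Set.ncard_sdiff_add_ncard_of_subset hQS hSfin
    exact this
  have h2 : (restr n '' (S \ Q)).ncard ≤ (S \ Q).ncard :=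
    Set.ncard_image_le (hSfin.subset Set.sdiff_subset)
  rw [himg] at h2
  unfold cplx
  rw [← hS]
  omega

/-- two distinct right special blocks -/
lemma cplx_grow_two [Finite α] (n : ℕ) {p1 q1 p2 q2 : ℕ}
    (h1 : Agree x n p1 q1) (h2 : Agree x n p2 q2)
    (n1 : x (p1 + n) ≠ x (q1 + n)) (n2 : x (p2 + n) ≠ x (q2 + n))
    (hd : ¬ Agree x n q1 q2) : cplx x n + 2 ≤ cplx x (n + 1) := by
  have h := cplx_grow (ι := Bool) (x := x) n (fun i => if i then p1 else p2)
    (fun i => if i then q1 else q2) (by rintro (_ | _) <;> simpa)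
    (by rintro (_ | _) <;> simpa) (by
      rintro (_ | _) (_ | _) hij
      · exact absurd rfl hij
      · simp only [Bool.false_eq_true, if_false, if_true]
        exact fun h => hd h.symm
      · simp only [Bool.false_eq_true, if_false, if_true]
        exact hd
      · exact absurd rfl hij)
  simpa using h

/-- three distinct right special blocks -/
lemma cplx_grow_three [Finite α] (n : ℕ) {p1 q1 p2 q2 p3 q3 : ℕ}
    (h1 : Agree x n p1 q1) (h2 : Agree x n p2 q2) (h3 : Agree x n p3 q3)
    (n1 : x (p1 + n) ≠ x (q1 + n)) (n2 : x (p2 + n) ≠ x (q2 + n))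
    (n3 : x (p3 + n) ≠ x (q3 + n))
    (hd12 : ¬ Agree x n q1 q2) (hd13 : ¬ Agree x n q1 q3) (hd23 : ¬ Agree x n q2 q3) :
    cplx x n + 3 ≤ cplx x (n + 1) := by
  have h := cplx_grow (ι := Fin 3) (x := x) n ![p1, p2, p3] ![q1, q2, q3]
    (by intro i; fin_cases i <;> simpa) (by intro i; fin_cases i <;> simpa) (by
      intro i j hij
      fin_cases i <;> fin_cases j <;> simp_all
      · exact fun h => hd12 h.symm
      · exact fun h => hd13 h.symm
      · exact fun h => hd23 h.symm)
  simpa using h

/-- one right special block -/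
lemma cplx_grow_one [Finite α] (n : ℕ) {p1 q1 : ℕ}
    (h1 : Agree x n p1 q1) (n1 : x (p1 + n) ≠ x (q1 + n)) :
    cplx x n + 1 ≤ cplx x (n + 1) := by
  have h := cplx_grow (ι := Unit) (x := x) n (fun _ => p1) (fun _ => q1) (fun _ => h1)
    (fun _ => n1) (fun i j hij => absurd rfl hij)
  simpa using h

/-- If there is only one right special block (of length `n`), followed by only two letters, the
complexity grows by at most one. -/
lemma exists_two_special [Finite α] (n : ℕ) (A B : α)
    (hAB : ∀ i j, Agree x n i j → x (i + n) ≠ x (j + n) →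
      (x (i + n) = A ∧ x (j + n) = B) ∨ (x (i + n) = B ∧ x (j + n) = A))
    (hs : cplx x n + 2 ≤ cplx x (n + 1)) :
    ∃ p1 q1 p2 q2, Agree x n p1 q1 ∧ Agree x n p2 q2 ∧ x (p1 + n) = A ∧ x (q1 + n) = B ∧
      x (p2 + n) = A ∧ x (q2 + n) = B ∧ ¬ Agree x n q1 q2 ∧ A ≠ B := by
  classical
  by_contra hcon
  push Not at hcon
  -- at most one special block
  by_cases hex : ∃ p q, Agree x n p q ∧ x (p + n) = A ∧ x (q + n) = B ∧ A ≠ B
  · obtain ⟨p, q, hpq, hpA, hqB, hne⟩ := hex
    have huniq : ∀ p' q', Agree x n p' q' → x (p' + n) = A → x (q' + n) = B →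
        Agree x n q q' := by
      intro p' q' h hA hB
      by_contra h'
      exact hne (hcon p q p' q' hpq h hpA hqB hA hB h')
    set S := Set.range (block x (n + 1)) with hS
    have hSfin : S.Finite := finite_range (n + 1)
    have hinj : Set.InjOn (restr n) (S \ {block x (n + 1) q}) := by
      rintro w ⟨⟨i, rfl⟩, hi⟩ w' ⟨⟨j, rfl⟩, hj⟩ h
      rw [restr_block, restr_block] at h
      have hij := block_eq_iff.1 h
      apply block_eq_iff.2
      by_cases hx : x (i + n) = x (j + n)
      · exact hij.succ hx
      · exfalso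
        rcases hAB i j hij hx with ⟨h1, h2⟩ | ⟨h1, h2⟩
        · have h3 := huniq i j hij h1 h2
          exact hj (block_eq_iff.2 (h3.symm.succ (by rw [h2, hqB])))
        · have h3 := huniq j i hij.symm h2 h1
          exact hi (block_eq_iff.2 (h3.symm.succ (by rw [h1, hqB])))
    have h1 : (S \ {block x (n + 1) q}).ncard + 1 = S.ncard :=
      Set.ncard_sdiff_singleton_add_one ⟨q, rfl⟩ hSfin
    have h2 : (restr n '' (S \ {block x (n + 1) q})).ncard
        = (S \ {block x (n + 1) q}).ncard := Set.ncard_image_of_injOn hinj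
    have h3 : (restr n '' (S \ {block x (n + 1) q})).ncard ≤ cplx x n := by
      apply Set.ncard_le_ncard _ (finite_range n)
      rw [← restr_image]
      exact Set.image_mono Set.sdiff_subset
    have h4 : cplx x (n + 1) = S.ncard := rfl
    omega
  · push Not at hex
    -- no special block at all
    have hinj : Set.InjOn (restr n) (Set.range (block x (n + 1))) := by
      rintro w ⟨i, rfl⟩ w' ⟨j, rfl⟩ h
      rw [restr_block, restr_block] at h
      have hij := block_eq_iff.1 h
      apply block_eq_iff.2
      by_cases hx : x (i + n) = x (j + n)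
      · exact hij.succ hx
      · exfalso
        rcases hAB i j hij hx with ⟨h1, h2⟩ | ⟨h1, h2⟩
        · exact hx (by rw [h1, h2]; exact hex i j hij h1 h2)
        · exact hx (by rw [h1, h2]; exact (hex j i hij.symm h2 h1).symm)
    have h2 := Set.ncard_image_of_injOn hinj
    rw [restr_image] at h2
    unfold cplx at hs
    omega

end grow

end Pool.Agent.Lib.MP_7e9a3a_nt.Cplx
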