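import Pool.Agent.Lib.MP_7e9a3a_nt.Cplx.H8Trans

/-!
After a level `m` with one right special block such that level `m + 1` has two, some level
`M ≥ m` has complexity at least `3 M / 2` (up to the error of the repetition estimate).
-/

namespace Pool.Agent.Lib.MP_7e9a3a_nt.Cplx

open Finset

section up

variable {α : Type*} {x : ℕ → α} {m t TB : ℕ}

/-- two occurrences of the special block, with the same `D` letters before and different letters
after -/
structure BP (x : ℕ → α) (m D P Q : ℕ) : Prop where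
  leP : D ≤ P
  leQ : D ≤ Q
  agree : Agree x (m + D) (P - D) (Q - D)
  ne : x (P + m) ≠ x (Q + m)

lemma BP.at {D P Q d : ℕ} (h : BP x m D P Q) (hd : d ≤ D) :
    Agree x (m + d) (P - d) (Q - d) ∧ x (P - d + (m + d)) ≠ x (Q - d + (m + d)) := by
  have h1 := h.leP
  have h2 := h.leQ
  constructor
  · have h3 := h.agree.shift (D - d) (m + d) (by omega)
    rw [show P - D + (D - d) = P - d by omega, show Q - D + (D - d) = Q - d by omega] at h3
    exact h3
  · rw [show P - d + (m + d) = P + m by omega, show Q - d + (m + d) = Q + m by omega]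
    exact h.ne

/-- blocks are distinct if the letters at distance `r` before the special block differ -/
lemma not_agree_of {Q Q' d r : ℕ} (hr : 1 ≤ r) (hrd : r ≤ d) (hQ : d ≤ Q) (hQ' : d ≤ Q')
    (h : x (Q - r) ≠ x (Q' - r)) : ¬ Agree x (m + d) (Q - d) (Q' - d) := by
  intro hag
  have := hag (d - r) (by omega)
  rw [show Q - d + (d - r) = Q - r by omega, show Q' - d + (d - r) = Q' - r by omega] at this
  exact h this

lemma grow2 [Finite α] {D1 P1 Q1 D2 P2 Q2 : ℕ} (h1 : BP x m D1 P1 Q1) (h2 : BP x m D2 P2 Q2)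
    (hne : x (Q1 - 1) ≠ x (Q2 - 1)) :
    ∀ e, e ≤ D1 → e ≤ D2 → cplx x (m + 1) + 2 * e ≤ cplx x (m + 1 + e) := by
  intro e
  induction e with
  | zero => intro _ _; simp
  | succ e ih =>
    intro e1 e2
    have h3 := ih (by omega) (by omega)
    obtain ⟨a1, n1⟩ := h1.at (d := e + 1) e1
    obtain ⟨a2, n2⟩ := h2.at (d := e + 1) e2
    have h4 := cplx_grow_two (x := x) (m + (e + 1)) a1 a2 n1 n2
      (not_agree_of (r := 1) le_rfl (by omega) (e1.trans h1.leQ) (e2.trans h2.leQ) hne)
    rw [show m + (e + 1) = m + 1 + e by omega] at h4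
    rw [show m + 1 + (e + 1) = m + 1 + e + 1 by omega]
    omega

/-- `V` special up to overlap `D`, `W` up to `g`, `U` special between `c` and `D`. -/
lemma grow3 [Finite α] {D P1 Q1 g P2 Q2 D3 P3 Q3 c : ℕ} (hV : BP x m D P1 Q1)
    (hW : BP x m g P2 Q2) (hU : BP x m D3 P3 Q3) (hD : D ≤ D3)
    (hVW : x (Q1 - 1) ≠ x (Q2 - 1)) (hUW : x (Q3 - 1) ≠ x (Q2 - 1))
    (hUV : x (Q3 - (c + 1)) ≠ x (Q1 - (c + 1))) :
    ∀ n, n ≤ D → cplx x (m + 1) + n + min g n + (n - c) ≤ cplx x (m + 1 + n) := by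
  intro n
  induction n with
  | zero => intro _; simp
  | succ n ih =>
    intro hn
    have h3 := ih (by omega)
    obtain ⟨a1, n1⟩ := hV.at (d := n + 1) hn
    rw [show m + 1 + (n + 1) = m + 1 + n + 1 by omega]
    by_cases hg : n + 1 ≤ g
    · obtain ⟨a2, n2⟩ := hW.at (d := n + 1) hg
      have d12 : ¬ Agree x (m + (n + 1)) (Q1 - (n + 1)) (Q2 - (n + 1)) :=
        not_agree_of (r := 1) le_rfl (by omega) (hn.trans hV.leQ) (hg.trans hW.leQ) hVW
      by_cases hc : c + 1 ≤ n + 1
      · obtain ⟨a3, n3⟩ := hU.at (d := n + 1) (hn.trans hD)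
        have d13 : ¬ Agree x (m + (n + 1)) (Q1 - (n + 1)) (Q3 - (n + 1)) :=
          not_agree_of (r := c + 1) (by omega) hc (hn.trans hV.leQ) ((hn.trans hD).trans hU.leQ)
            hUV.symm
        have d23 : ¬ Agree x (m + (n + 1)) (Q2 - (n + 1)) (Q3 - (n + 1)) :=
          not_agree_of (r := 1) le_rfl (by omega) (hg.trans hW.leQ)
            ((hn.trans hD).trans hU.leQ) hUW.symm
        have h4 := cplx_grow_three (x := x) (m + (n + 1)) a1 a2 a3 n1 n2 n3 d12 d13 d23
        rw [show m + (n + 1) = m + 1 + n by omega] at h4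
        omega
      · have h4 := cplx_grow_two (x := x) (m + (n + 1)) a1 a2 n1 n2 d12
        rw [show m + (n + 1) = m + 1 + n by omega] at h4
        omega
    · by_cases hc : c + 1 ≤ n + 1
      · obtain ⟨a3, n3⟩ := hU.at (d := n + 1) (hn.trans hD)
        have d13 : ¬ Agree x (m + (n + 1)) (Q1 - (n + 1)) (Q3 - (n + 1)) :=
          not_agree_of (r := c + 1) (by omega) hc (hn.trans hV.leQ) ((hn.trans hD).trans hU.leQ)
            hUV.symm
        have h4 := cplx_grow_two (x := x) (m + (n + 1)) a1 a3 n1 n3 d13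
        rw [show m + (n + 1) = m + 1 + n by omega] at h4
        omega
      · have h4 := cplx_grow_one (x := x) (m + (n + 1)) a1 n1
        rw [show m + (n + 1) = m + 1 + n by omega] at h4
        omega

/-- two `A`-arrivals with different next letters -/
lemma Lvl.bpA (L : Lvl x m t TB) {a T T' : ℕ} (ra : Ret x m t t a)
    (hv : Agree x m T t) (hx : x (T + m) = x (t + m)) (hv' : Agree x m T' t)
    (hx' : x (T' + m) = x (t + m)) (hne : x (T + a + m) ≠ x (T' + a + m)) :
    BP x m a (T + a) (T' + a) where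
  leP := by omega
  leQ := by omega
  agree := by
    rw [Nat.add_sub_cancel, Nat.add_sub_cancel]
    exact (L.loopA ra hv hx).2.symm.trans (L.loopA ra hv' hx').2
  ne := hne

lemma Lvl.bpB (L : Lvl x m t TB) {b T T' : ℕ} (rb : Ret x m t TB b)
    (hv : Agree x m T t) (hx : x (T + m) = x (TB + m)) (hv' : Agree x m T' t)
    (hx' : x (T' + m) = x (TB + m)) (hne : x (T + b + m) ≠ x (T' + b + m)) :
    BP x m b (T + b) (T' + b) where
  leP := by omega
  leQ := by omega
  agree := by
    rw [Nat.add_sub_cancel, Nat.add_sub_cancel]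
    exact (L.loopB rb hv hx).2.symm.trans (L.loopB rb hv' hx').2
  ne := hne

/-- the genuine case: growth -/
lemma Lvl.growG [Finite α] (L : Lvl x m t TB) {a b : ℕ} (ra : Ret x m t t a)
    (rb : Ret x m t TB b) (hc : x (t + a - 1) ≠ x (TB + b - 1))
    (hBB : ∃ T, Agree x m T t ∧ x (T + m) = x (TB + m) ∧ x (T + b + m) = x (TB + m))
    (hBA : ∃ T, Agree x m T t ∧ x (T + m) = x (TB + m) ∧ x (T + b + m) = x (t + m))
    (hAB : ∃ T, Agree x m T t ∧ x (T + m) = x (t + m) ∧ x (T + a + m) = x (TB + m))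
    (hAA : ∃ T, Agree x m T t ∧ x (T + m) = x (t + m) ∧ x (T + a + m) = x (t + m)) :
    cplx x (m + 1) + 2 * min a b ≤ cplx x (m + 1 + min a b) := by
  obtain ⟨T1, v1, l1, n1⟩ := hBB
  obtain ⟨T2, v2, l2, n2⟩ := hBA
  obtain ⟨T3, v3, l3, n3⟩ := hAB
  obtain ⟨T4, v4, l4, n4⟩ := hAA
  have h1 := L.bpA ra v3 l3 v4 l4 (by rw [n3, n4]; exact L.hne.symm)
  have h2 := L.bpB rb v1 l1 v2 l2 (by rw [n1, n2]; exact L.hne.symm)
  refine grow2 h1 h2 ?_ (min a b) (min_le_left _ _) (min_le_right _ _)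
  rw [L.preA ra v4 l4, L.preB rb v2 l2]
  exact hc

lemma Lvl.g3_zero {a b g3 e : ℕ} (hc : x (t + a - 1) ≠ x (e - 1))
    (O : Ov x m (t + a) a e b g3) : g3 = 0 := by
  by_contra h
  have h1 := O.le
  have h2 := O.le'
  have := O.agree (g3 - 1) (by omega)
  rw [show t + a - g3 + (g3 - 1) = t + a - 1 by omega,
    show e - g3 + (g3 - 1) = e - 1 by omega] at this
  exact hc this

lemma Lvl.g2_zero {l b g e : ℕ} (hc : x (t - 1) ≠ x (e - 1))
    (O : Ov x m t l e b g) : g = 0 := by
  by_contra h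
  have h1 := O.le
  have h2 := O.le'
  have := O.agree (g - 1) (by omega)
  rw [show t - g + (g - 1) = t - 1 by omega,
    show e - g + (g - 1) = e - 1 by omega] at this
  exact hc this

end up

end Pool.Agent.Lib.MP_7e9a3a_nt.Cplx
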