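import Pool.Agent.Lib.MP_7e9a3a_nt.Cplx.H8Grow

/-!
Levels `m` with one right special block such that level `m + 1` has at least two.
-/

namespace Pool.Agent.Lib.MP_7e9a3a_nt.Cplx

open Finset

section trans

variable {α : Type*} {x : ℕ → α} {m t TB : ℕ}

lemma Agree.append {ℓ n i j : ℕ} (h : Agree x ℓ i j) (h' : Agree x n (i + ℓ) (j + ℓ)) :
    Agree x (ℓ + n) i j := by
  intro k hk
  by_cases hkl : k < ℓ
  · exact h k hkl
  · have := h' (k - ℓ) (by omega)
    rw [show i + ℓ + (k - ℓ) = i + k by omega, show j + ℓ + (k - ℓ) = j + k by omega] at this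
    exact this

lemma Ret.unique {T ℓ ℓ' : ℕ} (h : Ret x m t T ℓ) (h' : Ret x m t T ℓ') : ℓ = ℓ' := by
  obtain ⟨h1, h2, h3⟩ := h
  obtain ⟨h1', h2', h3'⟩ := h'
  rcases lt_trichotomy ℓ ℓ' with h4 | h4 | h4
  · exact absurd h2 (h3' ℓ (by omega) h4)
  · exact h4
  · exact absurd h2' (h3 ℓ' (by omega) h4)

/-- loop `A` -/
lemma Lvl.loopA (L : Lvl x m t TB) {a T : ℕ} (ra : Ret x m t t a) (hv : Agree x m T t)
    (hx : x (T + m) = x (t + m)) : Ret x m t T a ∧ Agree x (m + a) t T :=
  L.loop hv.symm hx.symm ra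

/-- loop `B` -/
lemma Lvl.loopB (L : Lvl x m t TB) {b T : ℕ} (rb : Ret x m t TB b) (hv : Agree x m T t)
    (hx : x (T + m) = x (TB + m)) : Ret x m t T b ∧ Agree x (m + b) TB T :=
  L.loop (L.visB.trans hv.symm) hx.symm rb

lemma Lvl.pred (L : Lvl x m t TB) {a b T : ℕ} (ra : Ret x m t t a) (rb : Ret x m t TB b)
    (hv : Agree x m T t) (hT : T ≠ t) :
    ∃ T', Agree x m T' t ∧ ((x (T' + m) = x (t + m) ∧ T = T' + a) ∨
      (x (T' + m) = x (TB + m) ∧ T = T' + b)) := by
  classical
  have htT : t < T := by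
    rcases lt_trichotomy T t with h | h | h
    · exact absurd hv (L.first T h)
    · exact absurd h hT
    · exact h
  set P : ℕ → Prop := fun s => Agree x m s t ∧ s < T with hP
  set T' := Nat.findGreatest P T with hT'
  have hPt : P t := ⟨Agree.refl _ _, htT⟩
  have hPT' : P T' := Nat.findGreatest_spec htT.le hPt
  have hret : Ret x m t T' (T - T') := by
    refine ⟨by have := hPT'.2; omega, ?_, ?_⟩
    · rw [show T' + (T - T') = T by have := hPT'.2; omega]
      exact hv
    · intro s h1 h2 h3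
      have := Nat.findGreatest_is_greatest (P := P) (n := T) (k := T' + s) (by omega) (by omega)
      exact this ⟨h3, by omega⟩
  refine ⟨T', hPT'.1, ?_⟩
  have hlt := hPT'.2
  rcases L.letters T' hPT'.1 with h | h
  · left
    have h1 := (L.loopA ra hPT'.1 h).1.unique hret
    exact ⟨h, by omega⟩
  · right
    have h1 := (L.loopB rb hPT'.1 h).1.unique hret
    exact ⟨h, by omega⟩

/-- the letter before an `A`-arrival -/
lemma Lvl.preA (L : Lvl x m t TB) {a T : ℕ} (ra : Ret x m t t a) (hv : Agree x m T t)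
    (hx : x (T + m) = x (t + m)) : x (T + a - 1) = x (t + a - 1) := by
  have h := (L.loopA ra hv hx).2
  have ha := ra.1
  have := h (a - 1) (by omega)
  rw [show t + (a - 1) = t + a - 1 by omega, show T + (a - 1) = T + a - 1 by omega] at this
  exact this.symm

lemma Lvl.preB (L : Lvl x m t TB) {b T : ℕ} (rb : Ret x m t TB b) (hv : Agree x m T t)
    (hx : x (T + m) = x (TB + m)) : x (T + b - 1) = x (TB + b - 1) := by
  have h := (L.loopB rb hv hx).2
  have hb := rb.1
  have := h (b - 1) (by omega)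
  rw [show TB + (b - 1) = TB + b - 1 by omega, show T + (b - 1) = T + b - 1 by omega] at this
  exact this.symm

/-- a run of `B` loops -/
def Run (x : ℕ → α) (m t TB b T k : ℕ) : Prop :=
  ∀ i, i < k → Agree x m (T + i * b) t ∧ x (T + i * b + m) = x (TB + m)

lemma Run.visit (L : Lvl x m t TB) {b T k : ℕ} (rb : Ret x m t TB b) (hv : Agree x m T t)
    (hr : Run x m t TB b T k) : Agree x m (T + k * b) t := by
  rcases Nat.eq_zero_or_pos k with h | h
  · subst h; simpa using hv
  · obtain ⟨h1, h2⟩ := hr (k - 1) (by omega)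
    have h3 := (L.loopB rb h1 h2).1.2.1
    have e : T + (k - 1) * b + b = T + k * b := by
      obtain ⟨j, rfl⟩ : ∃ j, k = j + 1 := ⟨k - 1, by omega⟩
      simp only [Nat.add_sub_cancel]
      ring
    rw [e] at h3
    exact h3

lemma Run.tail {b T k : ℕ} (hr : Run x m t TB b T (k + 1)) : Run x m t TB b (T + b) k := by
  intro i hi
  have := hr (i + 1) (by omega)
  rw [show T + (i + 1) * b = T + b + i * b by ring] at this
  exact this

lemma Run.mono {b T k k' : ℕ} (hr : Run x m t TB b T k) (h : k' ≤ k) : Run x m t TB b T k' :=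
  fun i hi => hr i (by omega)

lemma Run.drop {b T k : ℕ} (j : ℕ) (hr : Run x m t TB b T k) (hj : j ≤ k) :
    Run x m t TB b (T + j * b) (k - j) := by
  intro i hi
  have := hr (j + i) (by omega)
  rw [show T + (j + i) * b = T + j * b + i * b by ring] at this
  exact this

/-- two runs agree -/
lemma Run.agree (L : Lvl x m t TB) {b k : ℕ} (rb : Ret x m t TB b) :
    ∀ {T T' : ℕ}, Agree x m T t → Agree x m T' t → Run x m t TB b T k → Run x m t TB b T' k →
      Agree x (m + k * b) T T' := by
  induction k with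
  | zero => intro T T' h h' _ _; simpa using h.trans h'.symm
  | succ k ih =>
    intro T T' h h' r r'
    have r0 := r 0 (by omega)
    have r0' := r' 0 (by omega)
    simp only [zero_mul, add_zero] at r0 r0'
    have l1 := L.loopB rb h r0.2
    have l2 := L.loopB rb h' r0'.2
    have a1 : Agree x (m + b) T T' := l1.2.symm.trans l2.2
    have a2 := ih l1.1.2.1 l2.1.2.1 r.tail r'.tail
    have a3 := (a1.mono (n' := b) (by omega)).append a2
    rw [show b + (m + k * b) = m + (k + 1) * b by ring] at a3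
    exact a3

/-- every run of `B` loops is finite -/
lemma Lvl.exists_run (L : Lvl x m t TB) (hnp : ∀ i j, i < j → ∃ k, x (i + k) ≠ x (j + k))
    {b T : ℕ} (rb : Ret x m t TB b) (hv : Agree x m T t) :
    ∃ k, Run x m t TB b T k ∧ x (T + k * b + m) = x (t + m) := by
  classical
  by_cases hex : ∃ k, ¬ Run x m t TB b T (k + 1)
  · set k := Nat.find hex with hk
    have h1 : ¬ Run x m t TB b T (k + 1) := Nat.find_spec hex
    have h2 : Run x m t TB b T k := by
      rcases Nat.eq_zero_or_pos k with h | h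
      · rw [h]; intro i hi; omega
      · have := Nat.find_min hex (m := k - 1) (by omega)
        rw [not_not, show k - 1 + 1 = k by omega] at this
        exact this
    refine ⟨k, h2, ?_⟩
    have h3 := h2.visit L rb hv
    rcases L.letters _ h3 with h | h
    · exact h
    · exfalso
      apply h1
      intro i hi
      by_cases hik : i < k
      · exact h2 i hik
      · have : i = k := by omega
        rw [this]
        exact ⟨h3, h⟩
  · push Not at hex
    exfalso
    have hb := rb.1
    obtain ⟨j, hj⟩ := hnp T (T + b) (by omega)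
    have r1 : Run x m t TB b T (j + 1) := hex j
    have r2 : Run x m t TB b (T + b) (j + 1) := (hex (j + 1)).tail
    have r0 := r1 0 (by omega)
    simp only [zero_mul, add_zero] at r0
    have hv' := (L.loopB rb hv r0.2).1.2.1
    have h := Run.agree L rb hv hv' r1 r2
    exact hj (h j (by nlinarith))

/-- Case distinction at a level with `s (m + 1) ≥ 2`. -/
lemma Lvl.cases (L : Lvl x m t TB) [Finite α]
    (hnp : ∀ i j, i < j → ∃ k, x (i + k) ≠ x (j + k)) {a b : ℕ}
    (ra : Ret x m t t a) (rb : Ret x m t TB b) (hs : cplx x (m + 1) + 2 ≤ cplx x (m + 2)) :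
    x (t + a - 1) ≠ x (TB + b - 1) ∧
    (∃ T, Agree x m T t ∧ x (T + m) = x (TB + m) ∧ x (T + b + m) = x (TB + m)) ∧
    (∃ T, Agree x m T t ∧ x (T + m) = x (TB + m) ∧ x (T + b + m) = x (t + m)) ∧
    (∃ T, Agree x m T t ∧ x (T + m) = x (t + m) ∧ x (T + a + m) = x (TB + m)) ∧
    ((∃ T, Agree x m T t ∧ x (T + m) = x (t + m) ∧ x (T + a + m) = x (t + m)) ∨
      ((∀ T, Agree x m T t → x (T + m) = x (t + m) → x (T + a + m) = x (TB + m)) ∧
        1 ≤ t ∧ x (t - 1) = x (t + a - 1))) := by
  have hdet : ∀ i j, Agree x (m + 1) i j → x (i + (m + 1)) ≠ x (j + (m + 1)) →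
      Agree x m (i + 1) t := by
    intro i j h hne
    by_contra hcon
    have h1 : Agree x m (i + 1) (j + 1) := h.shift 1 m le_rfl
    have h2 := L.det _ _ h1 hcon
    rw [show i + 1 + m = i + (m + 1) by omega, show j + 1 + m = j + (m + 1) by omega] at h2
    exact hne h2
  have hAB : ∀ i j, Agree x (m + 1) i j → x (i + (m + 1)) ≠ x (j + (m + 1)) →
      (x (i + (m + 1)) = x (t + m) ∧ x (j + (m + 1)) = x (TB + m)) ∨
      (x (i + (m + 1)) = x (TB + m) ∧ x (j + (m + 1)) = x (t + m)) := by
    intro i j h hne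
    have v1 := hdet i j h hne
    have v2 := hdet j i h.symm (Ne.symm hne)
    have l1 := L.letters _ v1
    have l2 := L.letters _ v2
    rw [show i + 1 + m = i + (m + 1) by omega] at l1
    rw [show j + 1 + m = j + (m + 1) by omega] at l2
    rcases l1 with l1 | l1 <;> rcases l2 with l2 | l2
    · exact absurd (l1.trans l2.symm) hne
    · exact Or.inl ⟨l1, l2⟩
    · exact Or.inr ⟨l1, l2⟩
    · exact absurd (l1.trans l2.symm) hne
  obtain ⟨p1, q1, p2, q2, h1, h2, pA1, qB1, pA2, qB2, hd, hne⟩ :=
    exists_two_special (m + 1) _ _ hAB hs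
  -- reformulate
  have key : ∀ p q, Agree x (m + 1) p q → x (p + (m + 1)) = x (t + m) →
      x (q + (m + 1)) = x (TB + m) →
      Agree x m (p + 1) t ∧ Agree x m (q + 1) t ∧ x p = x q ∧
      ((x q = x (t + a - 1) ∧ ∃ T, Agree x m T t ∧ x (T + m) = x (t + m) ∧
          x (T + a + m) = x (TB + m)) ∨
        (x q = x (TB + b - 1) ∧ ∃ T, Agree x m T t ∧ x (T + m) = x (TB + m) ∧
          x (T + b + m) = x (TB + m))) := by
    intro p q h hp hq
    have hne' : x (p + (m + 1)) ≠ x (q + (m + 1)) := by rw [hp, hq]; exact hne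
    have v1 := hdet p q h hne'
    have v2 := hdet q p h.symm (Ne.symm hne')
    refine ⟨v1, v2, h 0 (by omega), ?_⟩
    have hqt : q + 1 ≠ t := by
      intro h'
      apply hne
      rw [← hq, ← h', show q + 1 + m = q + (m + 1) by omega]
    obtain ⟨T', hv', h' | h'⟩ := L.pred ra rb v2 hqt
    · left
      have := L.preA ra hv' h'.1
      rw [← h'.2, Nat.add_sub_cancel] at this
      refine ⟨this, T', hv', h'.1, ?_⟩
      rw [← h'.2, ← hq]
      congr 1; omega
    · right
      have := L.preB rb hv' h'.1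
      rw [← h'.2, Nat.add_sub_cancel] at this
      refine ⟨this, T', hv', h'.1, ?_⟩
      rw [← h'.2, ← hq]
      congr 1; omega
  obtain ⟨v1, w1, e1, c1⟩ := key p1 q1 h1 pA1 qB1
  obtain ⟨v2, w2, e2, c2⟩ := key p2 q2 h2 pA2 qB2
  have hq12 : x q1 ≠ x q2 := by
    intro h
    exact hd ((w1.trans w2.symm).cons h)
  -- WLOG: pair 1 is of type A, pair 2 of type B
  have main : ∀ p q q', Agree x m (p + 1) t → Agree x m (q + 1) t → x p = x q →
      x (p + (m + 1)) = x (t + m) →
      (x q = x (t + a - 1) ∧ ∃ T, Agree x m T t ∧ x (T + m) = x (t + m) ∧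
          x (T + a + m) = x (TB + m)) →
      (x q' = x (TB + b - 1) ∧ ∃ T, Agree x m T t ∧ x (T + m) = x (TB + m) ∧
          x (T + b + m) = x (TB + m)) → x q ≠ x q' →
    x (t + a - 1) ≠ x (TB + b - 1) ∧
    (∃ T, Agree x m T t ∧ x (T + m) = x (TB + m) ∧ x (T + b + m) = x (TB + m)) ∧
    (∃ T, Agree x m T t ∧ x (T + m) = x (TB + m) ∧ x (T + b + m) = x (t + m)) ∧
    (∃ T, Agree x m T t ∧ x (T + m) = x (t + m) ∧ x (T + a + m) = x (TB + m)) ∧
    ((∃ T, Agree x m T t ∧ x (T + m) = x (t + m) ∧ x (T + a + m) = x (t + m)) ∨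
      ((∀ T, Agree x m T t → x (T + m) = x (t + m) → x (T + a + m) = x (TB + m)) ∧
        1 ≤ t ∧ x (t - 1) = x (t + a - 1))) := by
    intro p q q' vp vq epq pA cq cq' hqq
    have hcc : x (t + a - 1) ≠ x (TB + b - 1) := by rw [← cq.1, ← cq'.1]; exact hqq
    refine ⟨hcc, cq'.2, ?_, cq.2, ?_⟩
    · obtain ⟨T, hv, hT1, hT2⟩ := cq'.2
      obtain ⟨k, hr, hk⟩ := L.exists_run hnp rb hv
      have hk1 : 1 ≤ k := by
        by_contra h
        have : k = 0 := by omega
        subst this
        simp only [zero_mul, add_zero] at hk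
        exact hne (hk.symm.trans hT1)
      obtain ⟨h3, h4⟩ := hr (k - 1) (by omega)
      refine ⟨T + (k - 1) * b, h3, h4, ?_⟩
      rw [← hk]
      congr 1
      obtain ⟨j, rfl⟩ : ∃ j, k = j + 1 := ⟨k - 1, by omega⟩
      simp only [Nat.add_sub_cancel]
      ring
    · by_cases hAA : ∃ T, Agree x m T t ∧ x (T + m) = x (t + m) ∧ x (T + a + m) = x (t + m)
      · exact Or.inl hAA
      · right
        push Not at hAA
        refine ⟨?_, ?_⟩
        · intro T hv hT
          have h3 := (L.loopA ra hv hT).1.2.1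
          rcases L.letters _ h3 with h | h
          · exact absurd h (hAA T hv hT)
          · exact h
        · by_cases hpt : p + 1 = t
          · refine ⟨by omega, ?_⟩
            rw [← cq.1, ← epq, ← hpt, Nat.add_sub_cancel]
          · exfalso
            obtain ⟨T', hv', h' | h'⟩ := L.pred ra rb vp hpt
            · apply hAA T' hv' h'.1
              rw [← h'.2, ← pA]
              congr 1; omega
            · have := L.preB rb hv' h'.1
              rw [← h'.2, Nat.add_sub_cancel] at this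
              exact hcc (by rw [← this, epq, cq.1])
  rcases c1 with c1 | c1 <;> rcases c2 with c2 | c2
  · exact absurd (c1.1.trans c2.1.symm) hq12
  · exact main p1 q1 q2 v1 w1 e1 pA1 c1 c2 hq12
  · exact main p2 q2 q1 v2 w2 e2 pA2 c2 c1 (Ne.symm hq12)
  · exact absurd (c1.1.trans c2.1.symm) hq12

end trans

end Pool.Agent.Lib.MP_7e9a3a_nt.Cplx
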