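import Pool.Agent.Lib.MP_7e9a3a_nt.Cplx.H8Level
import Pool.Agent.Lib.MP_7e9a3a_nt.Cplx.H8Arith

/-!
The main step: after a level `m` with one right special block such that level `m + 1` has two,
some level `M ≥ m` has complexity at least `3 M / 2` up to the error of the repetition estimate.
-/

namespace Pool.Agent.Lib.MP_7e9a3a_nt.Cplx

open Finset

section up

variable {α : Type*} {x : ℕ → α} {m t TB : ℕ}

/-- size bound -/
lemma size8 {t a b g1 g2 P m K : ℕ}
    (hc : t + 1 + (a - (g1 + 1)) + (b - (g2 + 1)) ≤ P)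
    (hcon : 2 * P + 20 * K + 20 < 3 * m) (u : min g1 g2 ≤ 0) (l1 : g1 ≤ t) (l3 : g2 ≤ t) :
    t + a + b ≤ 3 * m := by omega

lemma count8 {t a b g1 g2 P : ℕ}
    (hc : t + 1 + (a - (g1 + 1)) + (b - (g2 + 1)) ≤ P) :
    t + a + b ≤ P + g1 + g2 + 1 := by omega

/-- application of the hypothesis -/
lemma use8 {K m i j n n' g : ℕ}
    (hH : ∀ i j n, i < j → j ≤ 8 * m → Agree x n i j → n ≤ j + K)
    (hij : i < j) (hj : j ≤ 8 * m) (hgi : g ≤ i) (h : Agree x n (i - g) (j - g)) (hn : g ≤ n)
    (h' : Agree x n' i j) : n' + 2 * g ≤ j + K := by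
  have h1 := h.glue hn hgi (by omega) h'
  have h2 := hH _ _ _ (by omega) (by omega) h1
  omega


/-- the pair `V`: `B ^ i` followed by both letters, inside one run of length `k > i` -/
lemma Run.bpV (L : Lvl x m t TB) {b T k i : ℕ} (rb : Ret x m t TB b) (hv : Agree x m T t)
    (hr : Run x m t TB b T k) (hk : x (T + k * b + m) = x (t + m)) (hi : i < k) :
    BP x m (i * b) (T + i * b) (T + k * b) := by
  have e1 : i * b ≤ k * b := Nat.mul_le_mul_right _ hi.le
  have e2 : k * b = (k - i) * b + i * b := by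
    rw [← add_mul]
    congr 1
    omega
  refine ⟨Nat.le_add_left _ _, e1.trans (Nat.le_add_left _ _), ?_, ?_⟩
  · have hdrop := (hr.drop (k - i) (by omega)).mono (by omega : i ≤ k - (k - i))
    have hv' := (hr.mono (by omega : k - i ≤ k)).visit L rb hv
    have hag := Run.agree L rb hv hv' (hr.mono hi.le) hdrop
    rw [show T + i * b - i * b = T by clear *-; omega,
      show T + k * b - i * b = T + (k - i) * b by clear * - e2; omega]
    exact hag
  · have h6 := (hr i hi).2
    rw [h6, hk]
    exact L.hne.symm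

/-- the letter before a position inside a run -/
lemma Run.pre (L : Lvl x m t TB) {b T k : ℕ} (rb : Ret x m t TB b)
    (hr : Run x m t TB b T k) {i : ℕ} (hi : 1 ≤ i) (hi2 : i ≤ k) :
    x (T + i * b - 1) = x (TB + b - 1) := by
  obtain ⟨h6, h7⟩ := hr (i - 1) (by omega)
  have h8 := L.preB rb h6 h7
  have e : T + (i - 1) * b + b = T + i * b := by
    obtain ⟨j, rfl⟩ : ∃ j, i = j + 1 := ⟨i - 1, by omega⟩
    simp only [Nat.add_sub_cancel]
    ring
  rw [e] at h8
  exact h8

/-- the pair `U`: `A B ^ i` followed by both letters -/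
lemma Run.bpU (L : Lvl x m t TB) {a b T T' k k' : ℕ} (ra : Ret x m t t a)
    (rb : Ret x m t TB b) (hT : Agree x m T t) (hT' : Agree x m T' t)
    (hxT : x (T + m) = x (t + m)) (hxT' : x (T' + m) = x (t + m))
    (hr : Run x m t TB b (T + a) k) (hr' : Run x m t TB b (T' + a) k')
    (hk' : x (T' + a + k' * b + m) = x (t + m)) (hlt : k' < k) :
    BP x m (a + k' * b) (T' + a + k' * b) (T + a + k' * b) := by
  have l1 := L.loopA ra hT hxT
  have l2 := L.loopA ra hT' hxT'
  have a0 : Agree x (m + a) T' T := l2.2.symm.trans l1.2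
  have a2 := Run.agree L rb l2.1.2.1 l1.1.2.1 hr' (hr.mono hlt.le)
  have a3 := (a0.mono (n' := a) (by omega)).append a2
  refine ⟨by clear *-; omega, by clear *-; omega, ?_, ?_⟩
  · rw [show T' + a + k' * b - (a + k' * b) = T' by clear *-; omega,
      show T + a + k' * b - (a + k' * b) = T by clear *-; omega,
      show m + (a + k' * b) = a + (m + k' * b) by clear *-; omega]
    exact a3
  · have h6 := (hr k' hlt).2
    rw [h6, hk']
    exact L.hne


lemma Lvl.growN1 [Finite α] (L : Lvl x m t TB) {a b g1 : ℕ} (rb : Ret x m t TB b)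
    (hcc : x (t + a - 1) ≠ x (TB + b - 1)) (hW : BP x m g1 t (t + a))
    (hBB : ∃ T, Agree x m T t ∧ x (T + m) = x (TB + m) ∧ x (T + b + m) = x (TB + m))
    (hBA : ∃ T, Agree x m T t ∧ x (T + m) = x (TB + m) ∧ x (T + b + m) = x (t + m)) :
    cplx x (m + 1) + 2 * min g1 b ≤ cplx x (m + 1 + min g1 b) := by
  obtain ⟨T1, v1, e1, n1⟩ := hBB
  obtain ⟨T2, v2, e2, n2⟩ := hBA
  have hV := L.bpB rb v1 e1 v2 e2 (by rw [n1, n2]; exact L.hne.symm)
  refine grow2 hW hV ?_ (min g1 b) (min_le_left _ _) (min_le_right _ _)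
  rw [L.preB rb v2 e2]
  exact hcc

lemma Lvl.growN3 [Finite α] {a : ℕ} (L : Lvl x m t (t + a)) {b g1 k k' : ℕ} (ra : Ret x m t t a)
    (rb : Ret x m t (t + a) b) (hcc : x (t + a - 1) ≠ x (t + a + b - 1))
    (hW : BP x m g1 t (t + a)) (hab : b ≤ a) (visT1 : Agree x m (t + a) t)
    (hr : Run x m t (t + a) b (t + a) k) (hk : x (t + a + k * b + m) = x (t + m))
    (visT3 : Agree x m (t + a + k * b) t)
    (hr' : Run x m t (t + a) b (t + a + k * b + a) k')
    (hk' : x (t + a + k * b + a + k' * b + m) = x (t + m)) (hk1 : 1 ≤ k') (hlt : k' + 1 < k) :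
    cplx x (m + 1) + (k' + 1) * b + min g1 ((k' + 1) * b) + ((k' + 1) * b - k' * b)
      ≤ cplx x (m + 1 + (k' + 1) * b) := by
  have hb1 := rb.1
  have hV := Run.bpV L rb visT1 hr hk hlt
  have hU := Run.bpU L ra rb (Agree.refl m t) visT3 rfl hk hr hr' hk' (Nat.lt_of_succ_lt hlt)
  have e2 : (k' + 1) * b = k' * b + b := by ring
  have hkk : k' ≤ k := (Nat.lt_of_succ_lt hlt).le
  have e4 : k * b = (k - k') * b + k' * b := by
    rw [← add_mul, Nat.sub_add_cancel hkk]
  have hpos : 1 ≤ k - k' := by clear * - hlt; omega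
  have hle : k - k' ≤ k := Nat.sub_le _ _
  have hk0 : 1 ≤ k := by clear * - hlt; omega
  have e5 : 1 ≤ (k - k') * b := Nat.mul_pos hpos hb1
  have q1 : x (t + a + k * b - 1) ≠ x (t + a - 1) := by
    rw [hr.pre L rb hk0 le_rfl]
    exact hcc.symm
  have q2 : x (t + a + k' * b - 1) ≠ x (t + a - 1) := by
    rw [hr.pre L rb hk1 hkk]
    exact hcc.symm
  have q3 : x (t + a + k' * b - (k' * b + 1)) ≠ x (t + a + k * b - (k' * b + 1)) := by
    rw [show t + a + k' * b - (k' * b + 1) = t + a - 1 by clear *-; omega,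
      show t + a + k * b - (k' * b + 1) = t + a + (k - k') * b - 1 by
        clear * - e4 e5; omega, hr.pre L rb hpos hle]
    exact hcc
  exact grow3 (c := k' * b) hV hW hU (by clear * - e2 hab; omega) q1 q2 q3
    ((k' + 1) * b) le_rfl

/-- the case where `A A` never occurs -/
theorem caseN [Finite α] (hnp : ∀ i j, i < j → ∃ k, x (i + k) ≠ x (j + k)) {K a b g1 : ℕ}
    (hH : ∀ i j n, i < j → j ≤ 8 * m → Agree x n i j → n ≤ j + K)
    (hcon0 : 2 * cplx x m + 20 * K + 20 < 3 * m) (hgr : cplx x m + 1 ≤ cplx x (m + 1))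
    (L : Lvl x m t (t + a)) (ra : Ret x m t t a) (rb : Ret x m t (t + a) b)
    (hcc : x (t + a - 1) ≠ x (t + a + b - 1))
    (hBB : ∃ T, Agree x m T t ∧ x (T + m) = x (t + a + m) ∧ x (T + b + m) = x (t + a + m))
    (hBA : ∃ T, Agree x m T t ∧ x (T + m) = x (t + a + m) ∧ x (T + b + m) = x (t + m))
    (hN : ∀ T, Agree x m T t → x (T + m) = x (t + m) → x (T + a + m) = x (t + a + m))
    (O12 : Ov x m t (t + 1) (t + a) a g1) (O13 : Ov x m t (t + 1) (t + a + b) b 0)
    (hfw : m + 1 ≤ a + b) (h1 : m + 2 * g1 ≤ t + a + K) (hsz : t + a + b ≤ 3 * m)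
    (hc8 : t + a + b ≤ cplx x m + g1 + 1)
    (hcon : ∀ M, m ≤ M → M ≤ 8 * m → 2 * cplx x M + 20 * K + 20 < 3 * M) : False := by
  have ha1 := ra.1
  have hb1 := rb.1
  have l1 := O12.le
  have visT1 : Agree x m (t + a) t := ra.2.1
  have visT2 : Agree x m (t + a + b) t := rb.2.1
  have hW : BP x m g1 t (t + a) := ⟨l1, l1.trans (Nat.le_add_right _ _), O12.agree, L.hne⟩
  have hgrow1 := L.growN1 rb hcc hW hBB hBA
  have hMN := hcon (m + 1 + min g1 b) (by clear *-; omega) (by clear * - hsz hcon0; omega)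
  have hR1 : cplx x m + 1 + 2 * min g1 b ≤ cplx x (m + 1 + min g1 b) := by
    clear * - hgrow1 hgr; omega
  have fin1 : m ≤ t + b + K → m ≤ t + a + K → False := by
    intro q1 q2
    have := up_N1 hfw h1 q1 q2 hc8 hR1
    clear * - this hMN; omega
  obtain ⟨k, hr, hk⟩ := L.exists_run hnp rb visT1
  have hk1 : 1 ≤ k := by
    rcases Nat.eq_zero_or_pos k with h | h
    · subst h
      simp only [zero_mul, add_zero] at hk
      exact absurd hk.symm L.hne
    · exact h
  have visT3 := hr.visit L rb visT1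
  have rT3 := L.loopA ra visT3 hk
  have visT4 : Agree x m (t + a + k * b + a) t := rT3.1.2.1
  have hx4 := hN _ visT3 hk
  obtain ⟨k', hr', hk'⟩ := L.exists_run hnp rb visT4
  have hk1' : 1 ≤ k' := by
    rcases Nat.eq_zero_or_pos k' with h | h
    · subst h
      simp only [zero_mul, add_zero] at hk'
      exact absurd (hk'.symm.trans hx4) L.hne
    · exact h
  obtain ⟨j, rfl⟩ : ∃ j, k = j + 1 := ⟨k - 1, by clear * - hk1; omega⟩
  have hkb : (j + 1) * b = j * b + b := by ring
  have h3 : m + j * b ≤ t + a + b + K := by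
    have hag := Run.agree L rb visT1 visT2 (hr.mono (Nat.le_succ j)) hr.tail
    exact hH _ _ _ (by clear * - hb1; omega) (by clear * - hsz; omega) hag
  have hpos3 : t + a + (j + 1) * b ≤ 8 * m := by
    clear * - h3 hkb hsz hcon0
    omega
  have h4 : m ≤ t + 2 * b + K := by
    have := hH _ _ _ (by clear * - hb1; omega) (by clear * - hsz; omega) (L.prd rb O13)
    clear * - this; omega
  have h5 : ∀ i, i ≤ j + 1 → i ≤ k' → m + i * b ≤ t + (j + 1) * b + K := by
    intro i hj hj'
    have a2 := Run.agree L rb visT1 visT4 (hr.mono hj) (hr'.mono hj')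
    have a3 := (rT3.2.mono (n' := a) (Nat.le_add_left _ _)).append a2
    have a4 := hH _ _ _ (by clear * - ha1; omega) hpos3 a3
    clear * - a4; omega
  rcases Nat.lt_or_ge k' (j + 1) with hlt | hge
  · rcases Nat.lt_or_ge (k' + 1) (j + 1) with hlt2 | hge2
    · -- k' + 2 ≤ k
      have hj : k' + 1 ≤ j := Nat.lt_succ_iff.1 hlt2
      have e1 : (k' + 1) * b ≤ j * b := Nat.mul_le_mul_right _ hj
      have e2 : (k' + 1) * b = k' * b + b := by ring
      rcases Nat.lt_or_ge a b with hab | hab
      · have q : m ≤ t + a + K := by clear * - h3 e1 e2; omega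
        have := up_N2 hfw h1 hab q hc8 hR1
        clear * - this hMN; omega
      · have hgrow3 := L.growN3 ra rb hcc hW hab visT1 hr hk visT3 hr' hk' hk1' hlt2
        have hM3 := hcon (m + 1 + (k' + 1) * b) (by clear *-; omega)
          (by clear * - h3 e1 hsz hcon0; omega)
        have q1 : m + (k' + 1) * b ≤ t + a + b + K := by clear * - h3 e1; omega
        have q2 : cplx x m + 1 + (k' + 1) * b + min g1 ((k' + 1) * b) + b
            ≤ cplx x (m + 1 + (k' + 1) * b) := by
          clear * - hgrow3 hgr e2; omega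
        have := up_N3 hfw h1 q1 h4 hc8 q2
        clear * - this hM3; omega
    · -- k' + 1 = k
      have hkk : k' = j := by clear * - hlt hge2; omega
      have h6 := h5 k' hlt.le le_rfl
      have hj1 : 1 ≤ j := hkk ▸ hk1'
      have hb2 : b ≤ j * b := Nat.le_mul_of_pos_left _ hj1
      rw [hkk] at h6
      exact fin1 (by clear * - h6 hkb; omega) (by clear * - h3 hb2; omega)
  · -- k ≤ k'
    have h6 := h5 (j + 1) le_rfl hge
    exact fin1 (by clear * - h6; omega) (by clear * - h6; omega)

theorem level_up [Finite α] (hnp : ∀ i j, i < j → ∃ k, x (i + k) ≠ x (j + k)) (m K : ℕ)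
    (hH : ∀ i j n, i < j → j ≤ 8 * m → Agree x n i j → n ≤ j + K)
    (hs : cplx x (m + 1) ≤ cplx x m + 1) (hs2 : cplx x (m + 1) + 2 ≤ cplx x (m + 2)) :
    ∃ M, m ≤ M ∧ M ≤ 8 * m ∧ 3 * M ≤ 2 * cplx x M + 20 * K + 20 := by
  by_contra hcon
  push Not at hcon
  have hcon0 : 2 * cplx x m + 20 * K + 20 < 3 * m := hcon m le_rfl (by omega)
  have hgr : cplx x m + 1 ≤ cplx x (m + 1) := cplx_lt_succ hnp m
  obtain ⟨t, TB, L⟩ := exists_lvl hnp m hs
  obtain ⟨a, ra⟩ := L.exists_ret t
  obtain ⟨b, rb⟩ := L.exists_ret TB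
  have ha1 := ra.1
  have hb1 := rb.1
  have B1 := L.br
  have B2 := ra.br
  obtain ⟨g1, O12⟩ := L.exists_ov B1 B2
  have l1 := O12.le
  have l2 := O12.lt'
  have visT1 : Agree x m (t + a) t := ra.2.1
  rcases L.letters (t + a) visT1 with hx1 | hx1
  · -- case AA
    have hfw := L.fw ra rb
    obtain ⟨hcc, hBB, hBA, hAB, hor⟩ := L.cases hnp ra rb hs2
    have hAA : ∃ T, Agree x m T t ∧ x (T + m) = x (t + m) ∧ x (T + a + m) = x (t + m) :=
      ⟨t, Agree.refl _ _, rfl, hx1⟩
    have hgrow := L.growG ra rb hcc hBB hBA hAB hAA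
    have B3 := rb.br
    obtain ⟨g2, O13⟩ := L.exists_ov B1 B3
    obtain ⟨g3, O23⟩ := L.exists_ov B2 B3
    have hg3 : g3 = 0 := Lvl.g3_zero hcc O23
    have hc := L.count B1 B2 B3 O12 O13 O23
    have u := ov_ultra O12 O13 O23
    rw [hg3] at hc u
    rw [max_eq_left (Nat.zero_le _)] at hc
    have l3 := O13.le
    have l4 := O13.lt'
    have hsz := size8 hc hcon0 u l1 l3
    have hA := (L.loop visT1.symm hx1.symm ra).2
    have h1 := use8 hH (by clear * - ha1; omega) (by clear * - hsz; omega) l1 O12.agree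
      (by clear *-; omega) hA
    have h2 := hH _ _ _ (by clear * - ha1; omega) (by clear * - hsz; omega) (L.brk ra O13)
    have hM := hcon (m + 1 + min a b) (by clear *-; omega) (by clear * - hsz hcon0; omega)
    refine absurd (up_AA (P := cplx x m) (K := K) (R := cplx x (m + 1 + min a b)) hfw ?_ ?_
      (count8 hc) u l4 (by clear * - hgrow hgr; omega)) (by clear * - hM; omega)
    · clear * - h1; omega
    · clear * - h2 l3 l4; omega
  · -- case AB
    have visTB : Agree x m TB (t + a) := L.visB.trans visT1.symm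
    have rb' := (L.loop visTB hx1.symm rb).1
    have L' : Lvl x m t (t + a) :=
      { visB := visT1
        hne := by rw [hx1]; exact L.hne
        first := L.first
        letters := by
          intro i hi
          rw [hx1]
          exact L.letters i hi
        det := L.det
        inf := L.inf }
    have hfw := L'.fw ra rb'
    obtain ⟨hcc, hBB, hBA, hAB, hor⟩ := L'.cases hnp ra rb' hs2
    have B3 := rb'.br
    obtain ⟨g2, O13⟩ := L.exists_ov B1 B3
    obtain ⟨g3, O23⟩ := L.exists_ov B2 B3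
    have hg3 : g3 = 0 := Lvl.g3_zero hcc O23
    have hc := L.count B1 B2 B3 O12 O13 O23
    have u := ov_ultra O12 O13 O23
    rw [hg3] at hc u
    rw [max_eq_left (Nat.zero_le _)] at hc
    have l3 := O13.le
    have l4 := O13.lt'
    have hsz := size8 hc hcon0 u l1 l3
    have visT2 : Agree x m (t + a + b) t := rb'.2.1
    have h1 := use8 hH (by clear * - ha1; omega) (by clear * - hsz; omega) l1 O12.agree
      (by clear *-; omega) visT1.symm
    rcases hor with hAA | ⟨hN, ht1, hxt⟩
    · -- genuine case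
      have hgrow := L'.growG ra rb' hcc hBB hBA hAB hAA
      have hM := hcon (m + 1 + min a b) (by clear *-; omega) (by clear * - hsz hcon0; omega)
      rcases L'.letters (t + a + b) visT2 with hx2 | hx2
      · -- ABA
        have hA := (L.loop visT2.symm hx2.symm ra).2
        have h2 := use8 hH (by clear * - ha1; omega) (by clear * - hsz; omega) l3 O13.agree
          (by clear *-; omega) hA
        refine absurd (up_ABA (P := cplx x m) (K := K) (R := cplx x (m + 1 + min a b)) hfw h1 ?_
          (count8 hc) u (by clear * - hgrow hgr; omega)) (by clear * - hM; omega)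
        clear * - h2; omega
      · -- ABB
        have hB := (L.loop (visT1.trans visT2.symm) hx2.symm rb').2
        have h2 := use8 hH (by clear * - ha1; omega) (by clear * - hsz; omega) l3 O13.agree
          (by clear *-; omega) visT2.symm
        have h3 := hH _ _ _ (by clear * - hb1; omega) (by clear * - hsz; omega) hB
        have h4 := hH _ _ _ (by clear * - hb1; omega) (by clear * - hsz; omega) (L'.prd rb' O13)
        refine absurd (up_ABB (P := cplx x m) (K := K) (R := cplx x (m + 1 + min a b)) hfw h1 h2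
          ?_ ?_ (count8 hc) u l4 (by clear * - hgrow hgr; omega)) (by clear * - hM; omega)
        · clear * - h3; omega
        · clear * - h4 l3; omega
    · -- case N
      have hg2 : g2 = 0 := Lvl.g2_zero (by rw [hxt]; exact hcc) O13
      subst hg2
      have hc8 : t + a + b ≤ cplx x m + g1 + 1 := by
        have := count8 hc
        clear * - this; omega
      exact caseN hnp hH hcon0 hgr L' ra rb' hcc hBB hBA hN O12 O13 hfw h1 hsz hc8 hcon

end up

end Pool.Agent.Lib.MP_7e9a3a_nt.Cplx
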