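import Pool.Agent.Lib.MP_7e9a3a_nt.Cplx.Words

namespace Pool.Agent.Lib.MP_7e9a3a_nt.Cplx

open Finset

section level

variable {α : Type*} {x : ℕ → α}

/-- A level `m` with exactly one right special block: `t` is its first occurrence, `TB` is an
occurrence followed by the other letter. -/
structure Lvl (x : ℕ → α) (m t TB : ℕ) : Prop where
  visB : Agree x m TB t
  hne : x (t + m) ≠ x (TB + m)
  first : ∀ s < t, ¬ Agree x m s t
  letters : ∀ i, Agree x m i t → x (i + m) = x (t + m) ∨ x (i + m) = x (TB + m)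
  det : ∀ i j, Agree x m i j → ¬ Agree x m i t → x (i + m) = x (j + m)
  inf : ∀ N, ∃ T, N ≤ T ∧ Agree x m T t

lemma visits [Finite α] (hnp : ∀ i j, i < j → ∃ k, x (i + k) ≠ x (j + k)) (m p : ℕ)
    (hdet : ∀ i j, Agree x m i j → ¬ Agree x m i p → x (i + m) = x (j + m)) (N : ℕ) :
    ∃ T, N ≤ T ∧ Agree x m T p := by
  by_contra hcon
  push Not at hcon
  obtain ⟨i, j, hi, hij, hag⟩ := exists_agree (x := x) m N
  have key : ∀ d, Agree x (m + d) i j := by
    intro d
    induction d with
    | zero => exact hag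
    | succ d ih =>
      apply ih.succ
      have h2 : Agree x m (i + d) (j + d) := ih.shift d m le_rfl
      have h3 := hdet _ _ h2 (hcon (i + d) (by omega))
      rw [show i + (m + d) = i + d + m by omega, show j + (m + d) = j + d + m by omega]
      exact h3
  obtain ⟨k, hk⟩ := hnp i j hij
  exact hk (key (k + 1) k (by omega))

lemma exists_lvl [Finite α] (hnp : ∀ i j, i < j → ∃ k, x (i + k) ≠ x (j + k)) (m : ℕ)
    (hs : cplx x (m + 1) ≤ cplx x m + 1) : ∃ t TB, Lvl x m t TB := by
  obtain ⟨p, q, hpq, hne, hsp⟩ := special hnp m hs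
  have hdet : ∀ i j, Agree x m i j → ¬ Agree x m i p → x (i + m) = x (j + m) := by
    intro i j hij hip
    by_contra h
    rcases hsp i j hij h with ⟨h1, _⟩ | ⟨h1, _⟩ <;> exact hip h1
  have hvis := visits hnp m p hdet
  classical
  have hex : ∃ T, Agree x m T p := by
    obtain ⟨T, -, hT⟩ := hvis 0
    exact ⟨T, hT⟩
  set t := Nat.find hex with ht
  have htp : Agree x m t p := Nat.find_spec hex
  have hiff : ∀ i, Agree x m i t ↔ Agree x m i p :=
    fun i => ⟨fun h => h.trans htp, fun h => h.trans htp.symm⟩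
  have hlet : ∀ i, Agree x m i p → x (i + m) = x (p + m) ∨ x (i + m) = x (q + m) := by
    intro i hi
    by_contra hcon
    push Not at hcon
    rcases hsp i p hi hcon.1 with ⟨_, h2, _⟩ | ⟨_, h2, _⟩
    · exact hcon.2 h2
    · exact hne h2
  have hfirst : ∀ s < t, ¬ Agree x m s t := by
    intro s hs h
    exact Nat.find_min hex hs ((hiff s).1 h)
  have hdet' : ∀ i j, Agree x m i j → ¬ Agree x m i t → x (i + m) = x (j + m) :=
    fun i j h h' => hdet i j h (fun h'' => h' ((hiff i).2 h''))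
  have hinf : ∀ N, ∃ T, N ≤ T ∧ Agree x m T t := by
    intro N
    obtain ⟨T, hT1, hT2⟩ := hvis N
    exact ⟨T, hT1, (hiff T).2 hT2⟩
  rcases hlet t htp with h | h
  · refine ⟨t, q, (hiff q).2 hpq.symm, ?_, hfirst, ?_, hdet', hinf⟩
    · rw [h]; exact hne
    · intro i hi
      rw [h]
      exact hlet i ((hiff i).1 hi)
  · refine ⟨t, p, (hiff p).2 (Agree.refl m p), ?_, hfirst, ?_, hdet', hinf⟩
    · rw [h]; exact fun h' => hne h'.symm
    · intro i hi
      rw [h]
      exact (hlet i ((hiff i).1 hi)).symm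

variable {m t TB : ℕ}

lemma Lvl.det_run (L : Lvl x m t TB) {i j d : ℕ} (h : Agree x m i j)
    (hv : ∀ s < d, ¬ Agree x m (i + s) t) : Agree x (m + d) i j := by
  induction d with
  | zero => exact h
  | succ d ih =>
    have h1 := ih (fun s hs => hv s (by omega))
    apply h1.succ
    have h2 : Agree x m (i + d) (j + d) := h1.shift d m le_rfl
    have h3 := L.det _ _ h2 (hv d (by omega))
    rw [show i + (m + d) = i + d + m by omega, show j + (m + d) = j + d + m by omega]
    exact h3

/-- `ℓ` is the return time to the special block from the visit `T`. -/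
def Ret (x : ℕ → α) (m t T ℓ : ℕ) : Prop :=
  1 ≤ ℓ ∧ Agree x m (T + ℓ) t ∧ ∀ s, 0 < s → s < ℓ → ¬ Agree x m (T + s) t

lemma Lvl.exists_ret (L : Lvl x m t TB) (T : ℕ) : ∃ ℓ, Ret x m t T ℓ := by
  classical
  have hex : ∃ ℓ, 1 ≤ ℓ ∧ Agree x m (T + ℓ) t := by
    obtain ⟨T', h1, h2⟩ := L.inf (T + 1)
    refine ⟨T' - T, by omega, ?_⟩
    rw [show T + (T' - T) = T' by omega]
    exact h2
  refine ⟨Nat.find hex, (Nat.find_spec hex).1, (Nat.find_spec hex).2, ?_⟩
  intro s hs1 hs2 h
  exact Nat.find_min hex hs2 ⟨hs1, h⟩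

lemma Lvl.loop (L : Lvl x m t TB) {T T' ℓ : ℕ} (hTT : Agree x m T T')
    (hx : x (T + m) = x (T' + m)) (hr : Ret x m t T ℓ) :
    Ret x m t T' ℓ ∧ Agree x (m + ℓ) T T' := by
  obtain ⟨h1, h2, h3⟩ := hr
  have ha : Agree x (m + 1) T T' := hTT.succ hx
  have hb : Agree x m (T + 1) (T' + 1) := ha.shift 1 m le_rfl
  have hc : Agree x (m + (ℓ - 1)) (T + 1) (T' + 1) := by
    apply L.det_run hb
    intro s hs
    have := h3 (1 + s) (by omega) (by omega)
    rw [← add_assoc] at this
    exact this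
  have hd : Agree x (m + ℓ) T T' := by
    intro k hk
    rcases Nat.eq_zero_or_pos k with h0 | h0
    · rw [h0]
      exact ha 0 (by omega)
    · have := hc (k - 1) (by omega)
      rw [show T + 1 + (k - 1) = T + k by omega, show T' + 1 + (k - 1) = T' + k by omega] at this
      exact this
  refine ⟨⟨h1, ?_, ?_⟩, hd⟩
  · have h4 : Agree x m (T + ℓ) (T' + ℓ) := hd.shift ℓ m le_rfl
    exact h4.symm.trans h2
  · intro s hs1 hs2 h
    apply h3 s hs1 hs2
    have h4 : Agree x m (T + s) (T' + s) := hd.shift s m (by omega)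
    exact h4.trans h

/-- A branch: a path of `l` blocks ending at the special block at position `e`. -/
structure Br (x : ℕ → α) (m t e l : ℕ) : Prop where
  pos : 1 ≤ l
  le : l ≤ e + 1
  vis : Agree x m e t
  non : ∀ d, 0 < d → d < l → ¬ Agree x m (e - d) t

lemma Ret.br {T ℓ : ℕ} (h : Ret x m t T ℓ) : Br x m t (T + ℓ) ℓ where
  pos := h.1
  le := by omega
  vis := h.2.1
  non := by
    intro d h1 h2
    rw [show T + ℓ - d = T + (ℓ - d) by omega]
    exact h.2.2 _ (by omega) (by omega)

lemma Lvl.br (L : Lvl x m t TB) : Br x m t t (t + 1) where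
  pos := by omega
  le := le_rfl
  vis := Agree.refl _ _
  non := by
    intro d h1 h2
    exact L.first _ (by omega)

lemma Lvl.dist_aux (L : Lvl x m t TB) {e l e' l' d d' : ℕ} (B : Br x m t e l)
    (B' : Br x m t e' l') (hd : d < l) (hd' : d' < l')
    (h : Agree x m (e - d) (e' - d')) : ¬ d < d' := by
  intro hlt
  have hle := B.le
  have hle' := B'.le
  have h1 : Agree x (m + d) (e' - d') (e - d) := by
    apply L.det_run h.symm
    intro s hs
    rw [show e' - d' + s = e' - (d' - s) by omega]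
    exact B'.non _ (by omega) (by omega)
  have h2 : Agree x m (e' - d' + d) (e - d + d) := h1.shift d m le_rfl
  rw [show e' - d' + d = e' - (d' - d) by omega, show e - d + d = e by omega] at h2
  exact B'.non _ (by omega) (by omega) (h2.trans B.vis)

lemma Lvl.dist (L : Lvl x m t TB) {e l e' l' d d' : ℕ} (B : Br x m t e l)
    (B' : Br x m t e' l') (hd : d < l) (hd' : d' < l')
    (h : Agree x m (e - d) (e' - d')) : d = d' := by
  have h1 := L.dist_aux B B' hd hd' h
  have h2 := L.dist_aux B' B hd' hd h.symm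
  omega

/-- Overlap of two branches. -/
structure Ov (x : ℕ → α) (m e l e' l' g : ℕ) : Prop where
  lt : g < l
  lt' : g < l'
  le : g ≤ e
  le' : g ≤ e'
  agree : Agree x (m + g) (e - g) (e' - g)
  sep : ∀ d, g < d → d < l → d < l' → ¬ Agree x m (e - d) (e' - d)

lemma Lvl.exists_ov (L : Lvl x m t TB) {e l e' l' : ℕ} (B : Br x m t e l)
    (B' : Br x m t e' l') : ∃ g, Ov x m e l e' l' g := by
  classical
  have hp := B.pos
  have hp' := B'.pos
  set P : ℕ → Prop := fun d => Agree x m (e - d) (e' - d) with hP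
  set g := Nat.findGreatest P (min l l' - 1) with hg
  have hgle : g ≤ min l l' - 1 := Nat.findGreatest_le _
  have hP0 : P 0 := B.vis.trans B'.vis.symm
  have hPg : P g := Nat.findGreatest_spec (Nat.zero_le _) hP0
  have hle := B.le
  have hle' := B'.le
  refine ⟨g, by omega, by omega, by omega, by omega, ?_, ?_⟩
  · have h1 := L.det_run (d := g) hPg (by
      intro s hs
      rw [show e - g + s = e - (g - s) by omega]
      exact B.non _ (by omega) (by omega))
    exact h1
  · intro d h1 h2 h3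
    exact Nat.findGreatest_is_greatest (P := P) h1 (by omega)

lemma Ov.agree_at {e l e' l' g : ℕ} (O : Ov x m e l e' l' g) {d : ℕ} (hd : d ≤ g) :
    Agree x m (e - d) (e' - d) := by
  have h1 := O.le
  have h2 := O.le'
  have h3 := O.agree.shift (g - d) m (by omega)
  rw [show e - g + (g - d) = e - d by omega, show e' - g + (g - d) = e' - d by omega] at h3
  exact h3

lemma ov_ultra {e1 l1 e2 l2 e3 l3 g12 g13 g23 : ℕ} (O12 : Ov x m e1 l1 e2 l2 g12)
    (O13 : Ov x m e1 l1 e3 l3 g13) (O23 : Ov x m e2 l2 e3 l3 g23) :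
    min g12 g13 ≤ g23 := by
  by_contra hcon
  push Not at hcon
  have h1 := O12.lt'
  have h2 := O13.lt'
  have a12 : Agree x m (e1 - min g12 g13) (e2 - min g12 g13) := O12.agree_at (min_le_left _ _)
  have a13 : Agree x m (e1 - min g12 g13) (e3 - min g12 g13) := O13.agree_at (min_le_right _ _)
  exact O23.sep _ hcon (by omega) (by omega) (a12.symm.trans a13)

lemma Ov.symm {e l e' l' g : ℕ} (O : Ov x m e l e' l' g) : Ov x m e' l' e l g where
  lt := O.lt'
  lt' := O.lt
  le := O.le'
  le' := O.le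
  agree := O.agree.symm
  sep := fun d h1 h2 h3 h4 => O.sep d h1 h3 h2 h4.symm

/-- Counting blocks along three branches. -/
lemma Lvl.count [Finite α] (L : Lvl x m t TB) {e1 l1 e2 l2 e3 l3 g12 g13 g23 : ℕ}
    (B1 : Br x m t e1 l1) (B2 : Br x m t e2 l2) (B3 : Br x m t e3 l3)
    (O12 : Ov x m e1 l1 e2 l2 g12)
    (O13 : Ov x m e1 l1 e3 l3 g13) (O23 : Ov x m e2 l2 e3 l3 g23) :
    l1 + (l2 - (g12 + 1)) + (l3 - (max g13 g23 + 1)) ≤ cplx x m := by
  classical
  set φ : ℕ → ℕ → (Fin m → α) := fun e d => block x m (e - d) with hφ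
  set U1 := (Finset.range l1).image (φ e1) with hU1
  set U2 := (Finset.Ico (g12 + 1) l2).image (φ e2) with hU2
  set U3 := (Finset.Ico (max g13 g23 + 1) l3).image (φ e3) with hU3
  have c1 : U1.card = l1 := by
    rw [hU1, Finset.card_image_of_injOn, Finset.card_range]
    intro d hd d' hd' h
    simp only [Finset.coe_range, Set.mem_Iio] at hd hd'
    exact L.dist B1 B1 hd hd' (block_eq_iff.1 h)
  have c2 : U2.card = l2 - (g12 + 1) := by
    rw [hU2, Finset.card_image_of_injOn, Nat.card_Ico]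
    intro d hd d' hd' h
    simp only [Finset.coe_Ico, Set.mem_Ico] at hd hd'
    exact L.dist B2 B2 hd.2 hd'.2 (block_eq_iff.1 h)
  have c3 : U3.card = l3 - (max g13 g23 + 1) := by
    rw [hU3, Finset.card_image_of_injOn, Nat.card_Ico]
    intro d hd d' hd' h
    simp only [Finset.coe_Ico, Set.mem_Ico] at hd hd'
    exact L.dist B3 B3 hd.2 hd'.2 (block_eq_iff.1 h)
  have d12 : Disjoint U1 U2 := by
    rw [Finset.disjoint_left]
    intro w hw1 hw2
    rw [hU1, Finset.mem_image] at hw1
    rw [hU2, Finset.mem_image] at hw2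
    obtain ⟨d, hd, hw⟩ := hw1
    obtain ⟨d', hd', hw'⟩ := hw2
    rw [Finset.mem_range] at hd
    rw [Finset.mem_Ico] at hd'
    have h := block_eq_iff.1 (hw.trans hw'.symm)
    have hdd := L.dist B1 B2 hd hd'.2 h
    rw [← hdd] at h hd'
    exact O12.sep d (by omega) hd hd'.2 h
  have d13 : Disjoint U1 U3 := by
    rw [Finset.disjoint_left]
    intro w hw1 hw2
    rw [hU1, Finset.mem_image] at hw1
    rw [hU3, Finset.mem_image] at hw2
    obtain ⟨d, hd, hw⟩ := hw1
    obtain ⟨d', hd', hw'⟩ := hw2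
    rw [Finset.mem_range] at hd
    rw [Finset.mem_Ico] at hd'
    have h := block_eq_iff.1 (hw.trans hw'.symm)
    have hdd := L.dist B1 B3 hd hd'.2 h
    rw [← hdd] at h hd'
    exact O13.sep d (by omega) hd hd'.2 h
  have d23 : Disjoint U2 U3 := by
    rw [Finset.disjoint_left]
    intro w hw1 hw2
    rw [hU2, Finset.mem_image] at hw1
    rw [hU3, Finset.mem_image] at hw2
    obtain ⟨d, hd, hw⟩ := hw1
    obtain ⟨d', hd', hw'⟩ := hw2
    rw [Finset.mem_Ico] at hd
    rw [Finset.mem_Ico] at hd'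
    have h := block_eq_iff.1 (hw.trans hw'.symm)
    have hdd := L.dist B2 B3 hd.2 hd'.2 h
    rw [← hdd] at h hd'
    exact O23.sep d (by omega) hd.2 hd'.2 h
  have hsub : ((U1 ∪ U2 ∪ U3 : Finset (Fin m → α)) : Set (Fin m → α)) ⊆
      Set.range (block x m) := by
    intro w hw
    simp only [Finset.coe_union, Set.mem_union, Finset.mem_coe, hU1, hU2, hU3,
      Finset.mem_image] at hw
    rcases hw with (⟨d, -, h⟩ | ⟨d, -, h⟩) | ⟨d, -, h⟩ <;> exact ⟨_, h⟩
  have hle := Set.ncard_le_ncard hsub (finite_range m)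
  rw [Set.ncard_coe_finset, Finset.card_union_of_disjoint, Finset.card_union_of_disjoint d12,
    c1, c2, c3] at hle
  · exact hle
  · rw [Finset.disjoint_union_left]
    exact ⟨d13, d23⟩

end level

end Pool.Agent.Lib.MP_7e9a3a_nt.Cplx
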