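import Mathlib

namespace Pool.Agent.Lib.MP_7e9a3a_nt.Cplx

open Finset

/-- The windows of length `n` at positions `i` and `j` agree. -/
def Agree {α : Type*} (x : ℕ → α) (n i j : ℕ) : Prop := ∀ k < n, x (i + k) = x (j + k)

/-- The block of length `n` at position `i`. -/
def block {α : Type*} (x : ℕ → α) (n i : ℕ) : Fin n → α := fun k => x (i + k)

/-- The number of distinct blocks of length `n`. -/
noncomputable def cplx {α : Type*} (x : ℕ → α) (n : ℕ) : ℕ := (Set.range (block x n)).ncard

section words

variable {α : Type*} {x : ℕ → α}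

lemma block_eq_iff {n i j : ℕ} : block x n i = block x n j ↔ Agree x n i j := by
  constructor
  · intro h k hk
    exact congrFun h ⟨k, hk⟩
  · intro h
    funext k
    exact h k k.2

lemma Agree.symm {n i j : ℕ} (h : Agree x n i j) : Agree x n j i := fun k hk => (h k hk).symm

lemma Agree.trans {n i j l : ℕ} (h : Agree x n i j) (h' : Agree x n j l) : Agree x n i l :=
  fun k hk => (h k hk).trans (h' k hk)

lemma Agree.refl (n i : ℕ) : Agree x n i i := fun _ _ => rfl

lemma Agree.mono {n n' i j : ℕ} (h : Agree x n i j) (hn : n' ≤ n) : Agree x n' i j :=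
  fun k hk => h k (by omega)

lemma Agree.shift {n i j : ℕ} (s n' : ℕ) (h : Agree x n i j) (hn : n' + s ≤ n) :
    Agree x n' (i + s) (j + s) := by
  intro k hk
  have := h (s + k) (by omega)
  rw [← add_assoc, ← add_assoc] at this
  exact this

lemma Agree.succ {n i j : ℕ} (h : Agree x n i j) (hx : x (i + n) = x (j + n)) :
    Agree x (n + 1) i j := by
  intro k hk
  rcases Nat.lt_succ_iff_lt_or_eq.1 hk with h' | h'
  · exact h k h'
  · rw [h']; exact hx

lemma Agree.cons {n i j : ℕ} (h : Agree x n (i + 1) (j + 1)) (hx : x i = x j) :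
    Agree x (n + 1) i j := by
  intro k hk
  rcases Nat.eq_zero_or_pos k with h' | h'
  · rw [h']; exact hx
  · have := h (k - 1) (by omega)
    have e1 : i + 1 + (k - 1) = i + k := by omega
    have e2 : j + 1 + (k - 1) = j + k := by omega
    rw [e1, e2] at this
    exact this

/-- combine a left extension and a right part -/
lemma Agree.glue {n n' i j g : ℕ} (h : Agree x n (i - g) (j - g)) (hn : g ≤ n) (hi : g ≤ i)
    (hj : g ≤ j) (h' : Agree x n' i j) : Agree x (n' + g) (i - g) (j - g) := by
  intro k hk
  by_cases hkn : k < n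
  · exact h k hkn
  · have := h' (k - g) (by omega)
    have e1 : i + (k - g) = i - g + k := by omega
    have e2 : j + (k - g) = j - g + k := by omega
    rw [e1, e2] at this
    exact this

lemma finite_range [Finite α] (n : ℕ) : (Set.range (block x n)).Finite := Set.toFinite _

/-- pigeonhole -/
lemma exists_agree [Finite α] (n N : ℕ) : ∃ i j, N ≤ i ∧ i < j ∧ Agree x n i j := by
  obtain ⟨i, j, hij, h⟩ := Finite.exists_ne_map_eq_of_infinite (fun i : ℕ => block x n (N + i))
  rcases lt_or_gt_of_ne hij with h1 | h1
  · exact ⟨N + i, N + j, by omega, by omega, block_eq_iff.1 h⟩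
  · exact ⟨N + j, N + i, by omega, by omega, block_eq_iff.1 h.symm⟩

/-- restriction from blocks of length `m+1` to blocks of length `m` -/
def restr (m : ℕ) (w : Fin (m + 1) → α) : Fin m → α := fun k => w k.castSucc

lemma restr_block (m i : ℕ) : restr m (block x (m + 1) i) = block x m i := by
  funext k; rfl

lemma restr_image (m : ℕ) :
    restr m '' (Set.range (block x (m + 1))) = Set.range (block x m) := by
  ext w
  constructor
  · rintro ⟨v, ⟨i, rfl⟩, rfl⟩
    exact ⟨i, (restr_block m i).symm⟩
  · rintro ⟨i, rfl⟩
    exact ⟨block x (m + 1) i, ⟨i, rfl⟩, restr_block m i⟩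

/-- For a non eventually periodic word, the complexity is strictly increasing. -/
lemma cplx_lt_succ [Finite α] (hnp : ∀ i j, i < j → ∃ k, x (i + k) ≠ x (j + k)) (m : ℕ) :
    cplx x m + 1 ≤ cplx x (m + 1) := by
  by_contra hcon
  push Not at hcon
  have hfin := finite_range (x := x) (m + 1)
  have h1 : (restr m '' (Set.range (block x (m + 1)))).ncard
      = (Set.range (block x (m + 1))).ncard := by
    apply le_antisymm (Set.ncard_image_le hfin)
    rw [restr_image]
    unfold cplx at hcon
    omega
  have hinj : Set.InjOn (restr m) (Set.range (block x (m + 1))) :=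
    (Set.ncard_image_iff hfin).1 h1
  obtain ⟨i, j, -, hij, hag⟩ := exists_agree (x := x) m 0
  have key : ∀ d, Agree x (m + d) i j := by
    intro d
    induction d with
    | zero => exact hag
    | succ d ih =>
      apply ih.succ
      have h2 : Agree x m (i + d) (j + d) := ih.shift d m le_rfl
      have h3 : block x (m + 1) (i + d) = block x (m + 1) (j + d) := by
        apply hinj ⟨_, rfl⟩ ⟨_, rfl⟩
        rw [restr_block, restr_block]
        exact block_eq_iff.2 h2
      have h4 := block_eq_iff.1 h3 m (by omega)
      rw [show i + (m + d) = i + d + m by omega, show j + (m + d) = j + d + m by omega]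
      exact h4
  obtain ⟨k, hk⟩ := hnp i j hij
  exact hk (key (k + 1) k (by omega))

/-- The structure at a level with exactly one right special block. -/
lemma special [Finite α] (hnp : ∀ i j, i < j → ∃ k, x (i + k) ≠ x (j + k)) (m : ℕ)
    (hs : cplx x (m + 1) ≤ cplx x m + 1) :
    ∃ p q : ℕ, Agree x m p q ∧ x (p + m) ≠ x (q + m) ∧
      ∀ i j, Agree x m i j → x (i + m) ≠ x (j + m) →
        (Agree x m i p ∧ x (i + m) = x (q + m) ∧ x (j + m) = x (p + m)) ∨
        (Agree x m i p ∧ x (j + m) = x (q + m) ∧ x (i + m) = x (p + m)) := by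
  obtain ⟨i0, j0, -, hij0, hag0⟩ := exists_agree (x := x) m 0
  classical
  have hex := hnp i0 j0 hij0
  set k := Nat.find hex with hk
  have hk1 : x (i0 + k) ≠ x (j0 + k) := Nat.find_spec hex
  have hk2 : ∀ l < k, x (i0 + l) = x (j0 + l) := by
    intro l hl
    by_contra h
    exact Nat.find_min hex hl h
  have hmk : m ≤ k := by
    by_contra h
    exact hk1 (hag0 k (by omega))
  set p := i0 + (k - m) with hp
  set q := j0 + (k - m) with hq
  have hpq : Agree x m p q := by
    intro l hl
    have := hk2 (k - m + l) (by omega)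
    rw [← add_assoc, ← add_assoc] at this
    exact this
  have hpqne : x (p + m) ≠ x (q + m) := by
    rw [show p + m = i0 + k by omega, show q + m = j0 + k by omega]
    exact hk1
  refine ⟨p, q, hpq, hpqne, ?_⟩
  -- injectivity on the complement of block q
  set S := Set.range (block x (m + 1)) with hS
  have hSfin : S.Finite := finite_range (m + 1)
  set S' := S \ {block x (m + 1) q} with hS'
  have hS'fin : S'.Finite := hSfin.subset Set.sdiff_subset
  have hpS' : block x (m + 1) p ∈ S' := by
    refine ⟨⟨p, rfl⟩, ?_⟩
    intro h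
    exact hpqne (block_eq_iff.1 h m (by omega))
  have himg : restr m '' S' = Set.range (block x m) := by
    apply le_antisymm
    · rw [← restr_image]
      exact Set.image_mono Set.sdiff_subset
    · rintro w ⟨i, rfl⟩
      by_cases h : block x (m + 1) i = block x (m + 1) q
      · refine ⟨block x (m + 1) p, hpS', ?_⟩
        rw [restr_block]
        apply block_eq_iff.2
        exact hpq.trans ((block_eq_iff.1 h).mono (by omega)).symm
      · exact ⟨block x (m + 1) i, ⟨⟨i, rfl⟩, h⟩, restr_block m i⟩
  have hcard : S'.ncard + 1 = S.ncard :=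
    Set.ncard_sdiff_singleton_add_one ⟨q, rfl⟩ hSfin
  have hinj : Set.InjOn (restr m) S' := by
    apply (Set.ncard_image_iff hS'fin).1
    apply le_antisymm (Set.ncard_image_le hS'fin)
    rw [himg]
    unfold cplx at hs
    rw [← hS] at hs
    omega
  -- main claim
  have hmain : ∀ i j, Agree x m i j → x (i + m) ≠ x (j + m) →
      block x (m + 1) i = block x (m + 1) q →
      Agree x m i p ∧ x (i + m) = x (q + m) ∧ x (j + m) = x (p + m) := by
    intro i j hij hne hi
    have h1 := block_eq_iff.1 hi
    have hip : Agree x m i p := (h1.mono (by omega)).trans hpq.symm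
    refine ⟨hip, h1 m (by omega), ?_⟩
    have h2 : block x (m + 1) j ∈ S' := by
      refine ⟨⟨j, rfl⟩, ?_⟩
      intro h
      apply hne
      rw [h1 m (by omega), (block_eq_iff.1 h) m (by omega)]
    have h3 := hinj h2 hpS' (by
      rw [restr_block, restr_block]
      exact block_eq_iff.2 (hij.symm.trans hip))
    exact block_eq_iff.1 h3 m (by omega)
  intro i j hij hne
  by_cases hi : block x (m + 1) i = block x (m + 1) q
  · exact Or.inl (hmain i j hij hne hi)
  · by_cases hj : block x (m + 1) j = block x (m + 1) q
    · obtain ⟨h1, h2, h3⟩ := hmain j i hij.symm (Ne.symm hne) hj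
      exact Or.inr ⟨hij.trans h1, h2, h3⟩
    · exfalso
      have h3 := hinj ⟨⟨i, rfl⟩, hi⟩ ⟨⟨j, rfl⟩, hj⟩ (by
        rw [restr_block, restr_block]
        exact block_eq_iff.2 hij)
      exact hne (block_eq_iff.1 h3 m (by omega))

end words

end Pool.Agent.Lib.MP_7e9a3a_nt.Cplx
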